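import Mathlib
import Pool.Agent.TH298.Sch.Key
import Pool.Agent.TH259.NS.Bes

/-!
Project AN: a domain `Ω` with `B(q, a) ⊆ Ω ⊆ B(q, b)` carrying a nontrivial solution of Schiffer's
problem is a disc if no Bessel function `J_N`, `N ≥ 2`, has a zero in `[√lam a, √lam b]`.

Statements of the building blocks. `X r θ = r (cos θ + i sin θ)`, `er θ = cos θ + i sin θ`
(files `TH298/Sch/Circ`), `B n s = ∑ (-s)^k / (k! (k+n)!)` (file `TH259/NS/Bes`).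
-/

set_option autoImplicit false

namespace Pool.Agent.TH298.AN

open MeasureTheory Set Real Pool.Agent.TH298.Sch TH259.NS
open scoped ContDiff

/-- the `n`-th cosine mode on circles -/
noncomputable def mc (v : ℂ → ℝ) (n : ℕ) (r : ℝ) : ℝ := ∫ θ in (-π)..π, v (X r θ) * cos (n * θ)

/-- the `n`-th sine mode on circles -/
noncomputable def ms (v : ℂ → ℝ) (n : ℕ) (r : ℝ) : ℝ := ∫ θ in (-π)..π, v (X r θ) * sin (n * θ)

/-- the derivative of `mc v n` -/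
noncomputable def dc (v : ℂ → ℝ) (n : ℕ) (r : ℝ) : ℝ :=
  ∫ θ in (-π)..π, fderiv ℝ v (X r θ) (er θ) * cos (n * θ)

/-- the derivative of `ms v n` -/
noncomputable def ds (v : ℂ → ℝ) (n : ℕ) (r : ℝ) : ℝ :=
  ∫ θ in (-π)..π, fderiv ℝ v (X r θ) (er θ) * sin (n * θ)

/-- the inequality for the `n`-th mode -/
def ModeIneq (μ b : ℝ) (n : ℕ) (y y' : ℝ → ℝ) : Prop :=
  (μ * ∫ r in (0 : ℝ)..b, r * y r ^ 2) ≤
    (∫ r in (0 : ℝ)..b, r * y' r ^ 2) + (n : ℝ) ^ 2 * ∫ r in (0 : ℝ)..b, y r ^ 2 / r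

/-- PARS: an inequality between the energy and the `L²` norm holds if it holds for all modes -/
def Pars : Prop :=
  ∀ (b μ : ℝ) (v : ℂ → ℝ), 0 < b → ContDiff ℝ (⊤ : ℕ∞) v → (∀ x, b ≤ ‖x‖ → v x = 0) →
    (∀ n : ℕ, ModeIneq μ b n (mc v n) (dc v n)) → (∀ n : ℕ, ModeIneq μ b n (ms v n) (ds v n)) →
    (μ * ∫ x, v x ^ 2) ≤ ∫ x, ((fderiv ℝ v x 1) ^ 2 + (fderiv ℝ v x Complex.I) ^ 2)

/-- MODE: coercivity for the `n`-th mode (`n ≥ 1`) when the function is a multiple of the regular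
Bessel solution on `[0, a]` and this solution has no zero on `[a, b]` -/
def Mode : Prop :=
  ∀ (n : ℕ) (a b lam : ℝ), 1 ≤ n → 0 < a → a < b → 0 < lam →
    (∀ s ∈ Icc (lam * a ^ 2 / 4) (lam * b ^ 2 / 4), B n s ≠ 0) →
    ∃ κ : ℝ, 0 < κ ∧ ∀ (y y' : ℝ → ℝ) (α : ℝ), (∀ r, HasDerivAt y (y' r) r) → Continuous y' →
      y b = 0 → (∀ r ∈ Icc 0 a, y r = α * r ^ n * B n (lam * r ^ 2 / 4)) →
      ModeIneq (lam + κ) b n y y'

/-- MODE0: the mode `0`, for functions orthogonal to constants -/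
def Mode0 : Prop :=
  ∀ (a b lam : ℝ), 0 < a → a < b → 0 < lam →
    (∀ s ∈ Icc (lam * a ^ 2 / 4) (lam * b ^ 2 / 4), B 2 s ≠ 0) →
    ∃ κ : ℝ, 0 < κ ∧ ∀ (y y' : ℝ → ℝ) (α : ℝ), (∀ r, HasDerivAt y (y' r) r) → Continuous y' →
      y b = 0 → (∀ r ∈ Icc 0 a, y r = α * B 0 (lam * r ^ 2 / 4)) →
      (∫ r in (0 : ℝ)..b, r * y r = 0) → ModeIneq (lam + κ) b 0 y y'

/-- MODE1: the mode `1`, for functions orthogonal to linear functions -/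
def Mode1 : Prop :=
  ∀ (a b lam : ℝ), 0 < a → a < b → 0 < lam →
    (∀ s ∈ Icc (lam * a ^ 2 / 4) (lam * b ^ 2 / 4), B 3 s ≠ 0) →
    ∃ κ : ℝ, 0 < κ ∧ ∀ (y y' : ℝ → ℝ) (α : ℝ), (∀ r, HasDerivAt y (y' r) r) → Continuous y' →
      y b = 0 → (∀ r ∈ Icc 0 a, y r = α * r * B 1 (lam * r ^ 2 / 4)) →
      (∫ r in (0 : ℝ)..b, r ^ 2 * y r = 0) → ModeIneq (lam + κ) b 1 y y'

/-- ODEM: the modes of a solution of the Helmholtz equation on a disc -/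
def Odem : Prop :=
  ∀ (a lam : ℝ) (v : ℂ → ℝ), 0 < a → 0 < lam → ContDiff ℝ (⊤ : ℕ∞) v →
    (∀ x : ℂ, ‖x‖ < a → dd 1 (dd 1 v) x + dd Complex.I (dd Complex.I v) x = -(lam * v x)) →
    ∀ n : ℕ, (∃ α : ℝ, ∀ r ∈ Icc 0 a, mc v n r = α * r ^ n * B n (lam * r ^ 2 / 4)) ∧
      (∃ α : ℝ, ∀ r ∈ Icc 0 a, ms v n r = α * r ^ n * B n (lam * r ^ 2 / 4))

end Pool.Agent.TH298.AN
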