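import Mathlib
import Pool.Agent.TH298.AN.Defs

/-!
Project AN, piece MODE: coercivity for one Bessel mode, by the ground state representation.
-/

set_option autoImplicit false

open MeasureTheory Set Real TH259.NS

namespace Pool.Agent.TH298.AN.MODEf

/-- the regular solution -/
noncomputable def ze (n : ℕ) (lam r : ℝ) : ℝ := r ^ n * B n (lam * r ^ 2 / 4)

/-- its derivative -/
noncomputable def zd (n : ℕ) (lam r : ℝ) : ℝ :=
  n * r ^ (n - 1) * B n (lam * r ^ 2 / 4) - lam / 2 * r ^ (n + 1) * B (n + 1) (lam * r ^ 2 / 4)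

/-- `r` times the derivative -/
noncomputable def z1 (n : ℕ) (lam r : ℝ) : ℝ :=
  n * r ^ n * B n (lam * r ^ 2 / 4) - lam / 2 * r ^ (n + 2) * B (n + 1) (lam * r ^ 2 / 4)

/-- the square of the regular solution divided by `r` -/
noncomputable def zh (n : ℕ) (lam r : ℝ) : ℝ := r ^ (2 * n - 1) * B n (lam * r ^ 2 / 4) ^ 2

lemma arg_deriv (lam r : ℝ) : HasDerivAt (fun r : ℝ => lam * r ^ 2 / 4) (lam * r / 2) r := by
  have h := ((hasDerivAt_pow 2 r).const_mul lam).div_const 4
  refine h.congr_deriv ?_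
  push_cast
  ring

lemma Bc_deriv (m : ℕ) (lam r : ℝ) : HasDerivAt (fun r : ℝ => B m (lam * r ^ 2 / 4))
    (-B (m + 1) (lam * r ^ 2 / 4) * (lam * r / 2)) r :=
  (B_deriv m _).comp r (arg_deriv lam r)

lemma Bc_cont (m : ℕ) (lam : ℝ) : Continuous fun r : ℝ => B m (lam * r ^ 2 / 4) :=
  (B_cont m).comp (by fun_prop)

lemma ze_cont (n : ℕ) (lam : ℝ) : Continuous (ze n lam) :=
  (continuous_pow n).mul (Bc_cont n lam)

lemma zd_cont (n : ℕ) (lam : ℝ) : Continuous (zd n lam) :=
  ((continuous_const.mul (continuous_pow _)).mul (Bc_cont n lam)).sub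
    ((continuous_const.mul (continuous_pow _)).mul (Bc_cont (n + 1) lam))

lemma zh_cont (n : ℕ) (lam : ℝ) : Continuous (zh n lam) :=
  (continuous_pow _).mul ((Bc_cont n lam).pow 2)

lemma ze_deriv (n : ℕ) (lam r : ℝ) : HasDerivAt (ze n lam) (zd n lam r) r := by
  have h := (hasDerivAt_pow n r).mul (Bc_deriv n lam r)
  refine h.congr_deriv ?_
  unfold zd
  ring

lemma z1_eq (n : ℕ) (lam r : ℝ) : z1 n lam r = r * zd n lam r := by
  unfold z1 zd
  rcases n with _ | k
  · simp only [Nat.cast_zero]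
    ring
  · rw [Nat.add_sub_cancel]
    ring

lemma z1_deriv {n : ℕ} (hn : 1 ≤ n) (lam r : ℝ) : HasDerivAt (z1 n lam)
    (((n : ℝ) ^ 2 - lam * r ^ 2) * (r ^ (n - 1) * B n (lam * r ^ 2 / 4))) r := by
  have h := (((hasDerivAt_pow n r).const_mul (n : ℝ)).mul (Bc_deriv n lam r)).sub
    (((hasDerivAt_pow (n + 2) r).const_mul (lam / 2)).mul (Bc_deriv (n + 1) lam r))
  refine h.congr_deriv ?_
  obtain ⟨k, rfl⟩ : ∃ k, n = k + 1 := ⟨n - 1, by omega⟩
  rw [Nat.add_sub_cancel, show k + 1 + 2 - 1 = k + 2 from rfl]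
  have := B_ode (k + 1) (lam * r ^ 2 / 4)
  push_cast at this ⊢
  linear_combination (lam * r ^ (k + 2)) * this

lemma ze_sq_div {n : ℕ} (hn : 1 ≤ n) (lam r : ℝ) : ze n lam r ^ 2 / r = zh n lam r := by
  unfold ze zh
  obtain ⟨k, rfl⟩ : ∃ k, n = k + 1 := ⟨n - 1, by omega⟩
  rw [show 2 * (k + 1) - 1 = 2 * k + 1 by omega]
  by_cases hr : r = 0
  · rw [hr]
    simp
  · field_simp
    ring

lemma z1_deriv' {n : ℕ} (hn : 1 ≤ n) (lam : ℝ) {r : ℝ} (hr : r ≠ 0) : HasDerivAt (z1 n lam)
    (((n : ℝ) ^ 2 - lam * r ^ 2) * (ze n lam r / r)) r := by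
  refine (z1_deriv hn lam r).congr_deriv ?_
  unfold ze
  obtain ⟨k, rfl⟩ : ∃ k, n = k + 1 := ⟨n - 1, by omega⟩
  rw [Nat.add_sub_cancel]
  field_simp
  ring

/-- Cauchy-Schwarz -/
lemma cs {f : ℝ → ℝ} {u v : ℝ} (huv : u < v) (hf : ContinuousOn f (Icc u v)) :
    (∫ x in u..v, f x) ^ 2 ≤ (v - u) * ∫ x in u..v, f x ^ 2 := by
  have h0 : 0 < v - u := sub_pos.2 huv
  have hf' : ContinuousOn f (uIcc u v) := by rwa [uIcc_of_le huv.le]
  set m : ℝ := (∫ x in u..v, f x) / (v - u) with hm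
  have e : (∫ x in u..v, f x) = m * (v - u) := by
    rw [hm]
    field_simp
  have i1 : IntervalIntegrable (fun x => f x ^ 2) volume u v := (hf'.pow 2).intervalIntegrable
  have i2 : IntervalIntegrable (fun x => (2 * m) * f x) volume u v :=
    (continuousOn_const.mul hf').intervalIntegrable
  have i3 : IntervalIntegrable (fun _ : ℝ => m ^ 2) volume u v :=
    continuous_const.intervalIntegrable _ _
  have h1 : 0 ≤ ∫ x in u..v, (f x ^ 2 - (2 * m) * f x + m ^ 2) := by
    refine intervalIntegral.integral_nonneg huv.le fun x _ => ?_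
    have : f x ^ 2 - (2 * m) * f x + m ^ 2 = (f x - m) ^ 2 := by ring
    rw [this]
    exact sq_nonneg _
  rw [intervalIntegral.integral_add (i1.sub i2) i3, intervalIntegral.integral_sub i1 i2,
    intervalIntegral.integral_const_mul, intervalIntegral.integral_const, smul_eq_mul, e] at h1
  rw [e]
  have h2 : m ^ 2 * (v - u) ≤ ∫ x in u..v, f x ^ 2 := by nlinarith
  calc (m * (v - u)) ^ 2 = (v - u) * (m ^ 2 * (v - u)) := by ring
    _ ≤ _ := mul_le_mul_of_nonneg_left h2 h0.le

/-- the energy on `[0, a]` -/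
lemma inner {n : ℕ} (hn : 1 ≤ n) {a : ℝ} (ha : 0 < a) (lam : ℝ) {y y' : ℝ → ℝ} {α : ℝ}
    (hy : ∀ r, HasDerivAt y (y' r) r) (hα : ∀ r ∈ Icc 0 a, y r = α * ze n lam r) :
    (∫ r in (0 : ℝ)..a, r * y' r ^ 2) + (n : ℝ) ^ 2 * (∫ r in (0 : ℝ)..a, y r ^ 2 / r) -
      lam * (∫ r in (0 : ℝ)..a, r * y r ^ 2) = α ^ 2 * (z1 n lam a * ze n lam a) := by
  have hy' : ∀ r ∈ Icc 0 a, y' r = α * zd n lam r := by
    intro r hr
    refine (uniqueDiffOn_Icc ha r hr).eq_deriv _ (hy r).hasDerivWithinAt ?_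
    exact ((ze_deriv n lam r).const_mul α).hasDerivWithinAt.congr (fun x hx => hα x hx) (hα r hr)
  have u1 : uIcc (0 : ℝ) a = Icc 0 a := uIcc_of_le ha.le
  have c1 : Continuous fun r => r * zd n lam r ^ 2 := continuous_id.mul ((zd_cont n lam).pow 2)
  have c2 := zh_cont n lam
  have c3 : Continuous fun r => r * ze n lam r ^ 2 := continuous_id.mul ((ze_cont n lam).pow 2)
  have e1 : (∫ r in (0 : ℝ)..a, r * y' r ^ 2) = α ^ 2 * ∫ r in (0 : ℝ)..a, r * zd n lam r ^ 2 := by
    rw [← intervalIntegral.integral_const_mul]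
    refine intervalIntegral.integral_congr fun r hr => ?_
    rw [u1] at hr
    rw [hy' r hr]
    ring
  have e2 : (∫ r in (0 : ℝ)..a, y r ^ 2 / r) = α ^ 2 * ∫ r in (0 : ℝ)..a, zh n lam r := by
    rw [← intervalIntegral.integral_const_mul]
    refine intervalIntegral.integral_congr fun r hr => ?_
    rw [u1] at hr
    rw [hα r hr, ← ze_sq_div hn]
    ring
  have e3 : (∫ r in (0 : ℝ)..a, r * y r ^ 2) = α ^ 2 * ∫ r in (0 : ℝ)..a, r * ze n lam r ^ 2 := by
    rw [← intervalIntegral.integral_const_mul]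
    refine intervalIntegral.integral_congr fun r hr => ?_
    rw [u1] at hr
    rw [hα r hr]
    ring
  have hd : ∀ r ∈ uIcc (0 : ℝ) a, HasDerivAt (fun r => z1 n lam r * ze n lam r)
      (r * zd n lam r ^ 2 + (n : ℝ) ^ 2 * zh n lam r - lam * (r * ze n lam r ^ 2)) r := by
    intro r _
    refine ((z1_deriv hn lam r).mul (ze_deriv n lam r)).congr_deriv ?_
    rw [z1_eq]
    unfold ze zh
    obtain ⟨k, rfl⟩ : ∃ k, n = k + 1 := ⟨n - 1, by omega⟩
    rw [Nat.add_sub_cancel, show 2 * (k + 1) - 1 = 2 * k + 1 by omega]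
    ring
  have i1 := c1.intervalIntegrable (μ := volume) 0 a
  have i2 := (c2.intervalIntegrable (μ := volume) 0 a).const_mul ((n : ℝ) ^ 2)
  have i3 := (c3.intervalIntegrable (μ := volume) 0 a).const_mul lam
  have h := intervalIntegral.integral_eq_sub_of_hasDerivAt hd ((i1.add i2).sub i3)
  rw [intervalIntegral.integral_sub (i1.add i2) i3, intervalIntegral.integral_add i1 i2,
    intervalIntegral.integral_const_mul, intervalIntegral.integral_const_mul] at h
  have h0 : ze n lam 0 = 0 := by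
    unfold ze
    rw [zero_pow (by omega), zero_mul]
  rw [h0, mul_zero, sub_zero] at h
  rw [e1, e2, e3, ← h]
  ring

/-- the energy on `[a, b]` -/
lemma outer {n : ℕ} (hn : 1 ≤ n) {a b : ℝ} (ha : 0 < a) (hab : a < b) (lam : ℝ) {y y' : ℝ → ℝ}
    (hy : ∀ r, HasDerivAt y (y' r) r) (hc : Continuous y') (hb : y b = 0)
    (hz : ∀ r ∈ Icc a b, ze n lam r ≠ 0) :
    (∫ r in a..b, r * y' r ^ 2) + (n : ℝ) ^ 2 * (∫ r in a..b, y r ^ 2 / r) -
      lam * (∫ r in a..b, r * y r ^ 2) =
      (∫ r in a..b, r * (y' r * ze n lam r - y r * zd n lam r) ^ 2 / ze n lam r ^ 2) -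
        z1 n lam a * y a ^ 2 / ze n lam a := by
  have u1 : uIcc a b = Icc a b := uIcc_of_le hab.le
  have hyc : Continuous y := continuous_iff_continuousAt.2 fun r => (hy r).continuousAt
  have hze := ze_cont n lam
  have hzd := zd_cont n lam
  have i1 : IntervalIntegrable (fun r => r * y' r ^ 2) volume a b :=
    (continuous_id.mul (hc.pow 2)).intervalIntegrable _ _
  have i2 : IntervalIntegrable (fun r => (n : ℝ) ^ 2 * (y r ^ 2 / r)) volume a b := by
    refine ContinuousOn.intervalIntegrable ?_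
    rw [u1]
    refine continuousOn_const.mul ((hyc.pow 2).continuousOn.div continuousOn_id fun r hr => ?_)
    exact (lt_of_lt_of_le ha hr.1).ne'
  have i3 : IntervalIntegrable (fun r => lam * (r * y r ^ 2)) volume a b :=
    (continuous_const.mul (continuous_id.mul (hyc.pow 2))).intervalIntegrable _ _
  have i4 : IntervalIntegrable (fun r => r * (y' r * ze n lam r - y r * zd n lam r) ^ 2 /
      ze n lam r ^ 2) volume a b := by
    refine ContinuousOn.intervalIntegrable ?_
    rw [u1]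
    refine (continuous_id.mul (((hc.mul hze).sub (hyc.mul hzd)).pow 2)).continuousOn.div
      (hze.pow 2).continuousOn fun r hr => ?_
    exact pow_ne_zero 2 (hz r hr)
  have hd : ∀ r ∈ uIcc a b, HasDerivAt (fun r => z1 n lam r * y r ^ 2 / ze n lam r)
      (r * y' r ^ 2 + (n : ℝ) ^ 2 * (y r ^ 2 / r) - lam * (r * y r ^ 2) -
        r * (y' r * ze n lam r - y r * zd n lam r) ^ 2 / ze n lam r ^ 2) r := by
    intro r hr
    rw [u1] at hr
    have hr0 : r ≠ 0 := (lt_of_lt_of_le ha hr.1).ne'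
    have hz0 := hz r hr
    have h1 := ((z1_deriv' hn lam hr0).mul ((hy r).pow 2)).div (ze_deriv n lam r) hz0
    refine h1.congr_deriv ?_
    simp only [Pi.mul_apply, Pi.pow_apply]
    rw [z1_eq]
    push_cast
    simp only [pow_one]
    field_simp
    ring
  have h := intervalIntegral.integral_eq_sub_of_hasDerivAt hd (((i1.add i2).sub i3).sub i4)
  rw [intervalIntegral.integral_sub ((i1.add i2).sub i3) i4,
    intervalIntegral.integral_sub (i1.add i2) i3, intervalIntegral.integral_add i1 i2,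
    intervalIntegral.integral_const_mul, intervalIntegral.integral_const_mul, hb] at h
  have h2 : z1 n lam b * (0 : ℝ) ^ 2 / ze n lam b = 0 := by simp
  rw [h2, zero_sub] at h
  linarith

/-- the pointwise bound on `[a, b]` -/
lemma point {n : ℕ} {a b c : ℝ} (ha : 0 < a) (hc0 : 0 < c) (lam : ℝ)
    {y y' : ℝ → ℝ} (hy : ∀ r, HasDerivAt y (y' r) r) (hc : Continuous y') (hb : y b = 0)
    (hz : ∀ r ∈ Icc a b, ze n lam r ≠ 0) (hcz : ∀ r ∈ Icc a b, c ≤ r * ze n lam r ^ 2) {r : ℝ}
    (hr : r ∈ Icc a b) :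
    y r ^ 2 ≤ (b - a) / c *
      (∫ r in a..b, r * (y' r * ze n lam r - y r * zd n lam r) ^ 2 / ze n lam r ^ 2) *
      ze n lam r ^ 2 := by
  set Q : ℝ := ∫ r in a..b, r * (y' r * ze n lam r - y r * zd n lam r) ^ 2 / ze n lam r ^ 2
    with hQ
  have hab : a ≤ b := hr.1.trans hr.2
  have hyc : Continuous y := continuous_iff_continuousAt.2 fun r => (hy r).continuousAt
  have hze := ze_cont n lam
  have hzd := zd_cont n lam
  have cq : ContinuousOn (fun r => r * (y' r * ze n lam r - y r * zd n lam r) ^ 2 /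
      ze n lam r ^ 2) (Icc a b) :=
    (continuous_id.mul (((hc.mul hze).sub (hyc.mul hzd)).pow 2)).continuousOn.div
      (hze.pow 2).continuousOn fun r hr => pow_ne_zero 2 (hz r hr)
  have cg : ContinuousOn (fun r => (y' r * ze n lam r - y r * zd n lam r) / ze n lam r ^ 2)
      (Icc a b) :=
    ((hc.mul hze).sub (hyc.mul hzd)).continuousOn.div
      (hze.pow 2).continuousOn fun r hr => pow_ne_zero 2 (hz r hr)
  have q0 : ∀ s ∈ Icc a b, 0 ≤ s * (y' s * ze n lam s - y s * zd n lam s) ^ 2 /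
      ze n lam s ^ 2 := by
    intro s hs
    have : 0 < s := lt_of_lt_of_le ha hs.1
    positivity
  have hQ0 : 0 ≤ Q := intervalIntegral.integral_nonneg hab q0
  rcases hr.2.eq_or_lt with h | hrb
  · rw [h, hb]
    have : 0 ≤ (b - a) / c * Q * ze n lam b ^ 2 := by
      have : 0 ≤ b - a := by linarith
      positivity
    simpa using this
  have hsub : Icc r b ⊆ Icc a b := Icc_subset_Icc_left hr.1
  have cg' := cg.mono hsub
  have hgd : ∀ s ∈ uIcc r b, HasDerivAt (fun s => y s / ze n lam s)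
      ((y' s * ze n lam s - y s * zd n lam s) / ze n lam s ^ 2) s := by
    intro s hs
    rw [uIcc_of_le hrb.le] at hs
    exact (hy s).div (ze_deriv n lam s) (hz s (hsub hs))
  have h1 := intervalIntegral.integral_eq_sub_of_hasDerivAt hgd
    (ContinuousOn.intervalIntegrable (by rw [uIcc_of_le hrb.le]; exact cg'))
  rw [hb, zero_div, zero_sub] at h1
  have h2 := cs hrb cg'
  rw [h1, neg_sq] at h2
  have h3 : (∫ s in r..b, ((y' s * ze n lam s - y s * zd n lam s) / ze n lam s ^ 2) ^ 2) ≤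
      Q / c := by
    have h4 : (∫ s in r..b, ((y' s * ze n lam s - y s * zd n lam s) / ze n lam s ^ 2) ^ 2) ≤
        ∫ s in r..b, (s * (y' s * ze n lam s - y s * zd n lam s) ^ 2 / ze n lam s ^ 2) / c := by
      refine intervalIntegral.integral_mono_on hrb.le
        (ContinuousOn.intervalIntegrable (by rw [uIcc_of_le hrb.le]; exact cg'.pow 2))
        (ContinuousOn.intervalIntegrable (by
          rw [uIcc_of_le hrb.le]
          exact (cq.mono hsub).div_const c)) fun s hs => ?_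
      have hz0 := hz s (hsub hs)
      have hcs := hcz s (hsub hs)
      set P : ℝ := y' s * ze n lam s - y s * zd n lam s with hP
      rw [div_pow, div_div, div_le_div_iff₀ (by positivity) (by positivity)]
      have h5 : P ^ 2 * (ze n lam s ^ 2 * c) ≤ P ^ 2 * (ze n lam s ^ 2 * (s * ze n lam s ^ 2)) := by
        gcongr
      calc P ^ 2 * (ze n lam s ^ 2 * c) ≤ _ := h5
        _ = s * P ^ 2 * (ze n lam s ^ 2) ^ 2 := by ring
    refine h4.trans ?_
    rw [intervalIntegral.integral_div]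
    refine div_le_div_of_nonneg_right ?_ hc0.le
    have hi1 : IntervalIntegrable (fun r => r * (y' r * ze n lam r - y r * zd n lam r) ^ 2 /
        ze n lam r ^ 2) volume a r := ContinuousOn.intervalIntegrable (by
      rw [uIcc_of_le hr.1]
      exact cq.mono (Icc_subset_Icc_right hrb.le))
    have hi2 : IntervalIntegrable (fun r => r * (y' r * ze n lam r - y r * zd n lam r) ^ 2 /
        ze n lam r ^ 2) volume r b := ContinuousOn.intervalIntegrable (by
      rw [uIcc_of_le hrb.le]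
      exact cq.mono hsub)
    have h6 := intervalIntegral.integral_add_adjacent_intervals hi1 hi2
    have h7 : 0 ≤ ∫ s in a..r, s * (y' s * ze n lam s - y s * zd n lam s) ^ 2 /
        ze n lam s ^ 2 :=
      intervalIntegral.integral_nonneg hr.1 fun s hs => q0 s ⟨hs.1, hs.2.trans hrb.le⟩
    rw [hQ, ← h6]
    linarith
  have h8 : (y r / ze n lam r) ^ 2 ≤ (b - a) / c * Q := by
    refine h2.trans ?_
    calc (b - r) * (∫ s in r..b, ((y' s * ze n lam s - y s * zd n lam s) /
          ze n lam s ^ 2) ^ 2) ≤ (b - r) * (Q / c) :=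
          mul_le_mul_of_nonneg_left h3 (by linarith)
      _ ≤ (b - a) * (Q / c) := mul_le_mul_of_nonneg_right (by linarith [hr.1]) (by positivity)
      _ = (b - a) / c * Q := by ring
  have hz0 := hz r hr
  calc y r ^ 2 = (y r / ze n lam r) ^ 2 * ze n lam r ^ 2 := by field_simp
    _ ≤ _ := mul_le_mul_of_nonneg_right h8 (sq_nonneg _)

end Pool.Agent.TH298.AN.MODEf

namespace Pool.Agent.TH298.AN

open MODEf

theorem mode : Mode := by
  intro n a b lam hn ha hab hlam hB
  have hb0 : 0 < b := ha.trans hab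
  have hz : ∀ r ∈ Icc a b, ze n lam r ≠ 0 := by
    intro r hr
    have hr0 : 0 < r := lt_of_lt_of_le ha hr.1
    refine mul_ne_zero (pow_ne_zero _ hr0.ne') (hB _ ⟨?_, ?_⟩)
    · have : a ^ 2 ≤ r ^ 2 := pow_le_pow_left₀ ha.le hr.1 2
      have := mul_le_mul_of_nonneg_left this hlam.le
      linarith
    · have : r ^ 2 ≤ b ^ 2 := pow_le_pow_left₀ hr0.le hr.2 2
      have := mul_le_mul_of_nonneg_left this hlam.le
      linarith
  have hze := ze_cont n lam
  obtain ⟨r0, hr0, hmin⟩ := isCompact_Icc.exists_isMinOn (nonempty_Icc.2 hab.le)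
    ((continuous_id.mul (hze.pow 2)).continuousOn (s := Icc a b))
  set c : ℝ := r0 * ze n lam r0 ^ 2 with hcdef
  have hc0 : 0 < c := by
    have h1 : 0 < r0 := lt_of_lt_of_le ha hr0.1
    have h2 := hz r0 hr0
    positivity
  have hcz : ∀ r ∈ Icc a b, c ≤ r * ze n lam r ^ 2 := fun r hr => hmin hr
  set K : ℝ := (b - a) / c with hK
  have hK0 : 0 < K := div_pos (sub_pos.2 hab) hc0
  set S : ℝ := ∫ r in (0 : ℝ)..b, r * ze n lam r ^ 2 with hS
  have hS0 : 0 ≤ S := intervalIntegral.integral_nonneg hb0.le fun r hr =>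
    mul_nonneg hr.1 (sq_nonneg _)
  have hD : 0 < K * S + 1 := by positivity
  refine ⟨1 / (K * S + 1), by positivity, ?_⟩
  intro y y' α hy hc hb hα'
  have hα : ∀ r ∈ Icc 0 a, y r = α * ze n lam r := by
    intro r hr
    rw [hα' r hr]
    unfold ze
    ring
  have hyc : Continuous y := continuous_iff_continuousAt.2 fun r => (hy r).continuousAt
  have h1 := inner hn ha lam hy hα
  have h2 := outer hn ha hab lam hy hc hb hz
  set Q : ℝ := ∫ r in a..b, r * (y' r * ze n lam r - y r * zd n lam r) ^ 2 / ze n lam r ^ 2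
    with hQ
  have hQ0 : 0 ≤ Q := intervalIntegral.integral_nonneg hab.le fun s hs => by
    have : 0 < s := lt_of_lt_of_le ha hs.1
    positivity
  have hza := hz a ⟨le_rfl, hab.le⟩
  have hya := hα a ⟨ha.le, le_rfl⟩
  have h3 : z1 n lam a * y a ^ 2 / ze n lam a = α ^ 2 * (z1 n lam a * ze n lam a) := by
    rw [hya]
    field_simp
  -- the pointwise bound
  have hp : ∀ r ∈ Icc 0 b, y r ^ 2 ≤ K * Q * ze n lam r ^ 2 := by
    intro r hr
    rcases le_or_gt r a with h | h
    · have h4 := point ha hc0 lam hy hc hb hz hcz (r := a) ⟨le_rfl, hab.le⟩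
      rw [← hQ, ← hK, hya, mul_pow] at h4
      have h5 : α ^ 2 ≤ K * Q := le_of_mul_le_mul_right h4 (by positivity)
      rw [hα r ⟨hr.1, h⟩, mul_pow]
      exact mul_le_mul_of_nonneg_right h5 (sq_nonneg _)
    · exact point ha hc0 lam hy hc hb hz hcz ⟨h.le, hr.2⟩
  have hN : (∫ r in (0 : ℝ)..b, r * y r ^ 2) ≤ K * Q * S := by
    rw [hS, ← intervalIntegral.integral_const_mul]
    refine intervalIntegral.integral_mono_on hb0.le
      ((continuous_id.mul (hyc.pow 2)).intervalIntegrable _ _)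
      ((continuous_const.mul (continuous_id.mul (hze.pow 2))).intervalIntegrable _ _)
      fun r hr => ?_
    calc r * y r ^ 2 ≤ r * (K * Q * ze n lam r ^ 2) := mul_le_mul_of_nonneg_left (hp r hr) hr.1
      _ = K * Q * (r * ze n lam r ^ 2) := by ring
  -- the splitting of the integrals
  have s1 : (∫ r in (0 : ℝ)..b, r * y' r ^ 2) =
      (∫ r in (0 : ℝ)..a, r * y' r ^ 2) + ∫ r in a..b, r * y' r ^ 2 :=
    (intervalIntegral.integral_add_adjacent_intervals
      ((continuous_id.mul (hc.pow 2)).intervalIntegrable _ _)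
      ((continuous_id.mul (hc.pow 2)).intervalIntegrable _ _)).symm
  have s3 : (∫ r in (0 : ℝ)..b, r * y r ^ 2) =
      (∫ r in (0 : ℝ)..a, r * y r ^ 2) + ∫ r in a..b, r * y r ^ 2 :=
    (intervalIntegral.integral_add_adjacent_intervals
      ((continuous_id.mul (hyc.pow 2)).intervalIntegrable _ _)
      ((continuous_id.mul (hyc.pow 2)).intervalIntegrable _ _)).symm
  have i2a : IntervalIntegrable (fun r => y r ^ 2 / r) volume 0 a := by
    refine ContinuousOn.intervalIntegrable ?_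
    rw [uIcc_of_le ha.le]
    refine (continuous_const.mul (zh_cont n lam)).continuousOn.congr
      (f := fun r => α ^ 2 * zh n lam r) fun r hr => ?_
    simp only
    rw [hα r hr, ← ze_sq_div hn]
    ring
  have i2b : IntervalIntegrable (fun r => y r ^ 2 / r) volume a b := by
    refine ContinuousOn.intervalIntegrable ?_
    rw [uIcc_of_le hab.le]
    exact (hyc.pow 2).continuousOn.div continuousOn_id fun r hr => (lt_of_lt_of_le ha hr.1).ne'
  have s2 : (∫ r in (0 : ℝ)..b, y r ^ 2 / r) =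
      (∫ r in (0 : ℝ)..a, y r ^ 2 / r) + ∫ r in a..b, y r ^ 2 / r :=
    (intervalIntegral.integral_add_adjacent_intervals i2a i2b).symm
  have hκ : 1 / (K * S + 1) * (∫ r in (0 : ℝ)..b, r * y r ^ 2) ≤ Q := by
    rw [one_div, inv_mul_le_iff₀ hD]
    calc _ ≤ K * Q * S := hN
      _ ≤ (K * S + 1) * Q := by nlinarith
  unfold ModeIneq
  rw [add_mul]
  rw [s1, s2]
  have s3' := s3
  have h4 : lam * (∫ r in (0 : ℝ)..b, r * y r ^ 2) = lam * (∫ r in (0 : ℝ)..a, r * y r ^ 2) +
      lam * ∫ r in a..b, r * y r ^ 2 := by rw [s3]; ring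
  rw [h4]
  rw [h3] at h2
  linarith

end Pool.Agent.TH298.AN
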