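import Pool.Agent.TH298.AN.Defs
import Pool.Agent.TH298.Sch.Coer3

/-!
Modes 0 and 1 from MODE by the substitutions `w = y - 2 G / r ^ 2`, `G = ∫_0^r s y` and
`w = y - 4 G / r ^ 3`, `G = ∫_0^r s² y` (job 4047 of helper298, written by helper993).
-/

set_option autoImplicit false
set_option linter.unusedVariables false

namespace Pool.Agent.TH298.AN

open MeasureTheory Set Real Pool.Agent.TH298.Sch TH259.NS

namespace Mode01

open Pool.Agent.TH298.Sch.Coer2 Pool.Agent.TH298.Sch.Coer3

/-- integrability of `w² / r` -/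
theorem int_div {b : ℝ} (hb : 0 < b) {w w' : ℝ → ℝ} (hw : ∀ r, HasDerivAt w (w' r) r)
    (hw' : Continuous w') (h0 : w 0 = 0) :
    IntervalIntegrable (fun r => w r ^ 2 / r) volume 0 b := by
  have hwc : Continuous w := continuous_iff_continuousAt.2 (fun x => (hw x).continuousAt)
  obtain ⟨C, hC⟩ : ∃ C, ∀ r ∈ Icc (0 : ℝ) b, |w' r| ≤ C := by
    have := (isCompact_Icc (a := (0 : ℝ)) (b := b)).exists_bound_of_continuousOn hw'.continuousOn
    simpa only [Real.norm_eq_abs] using this
  have hC0 : 0 ≤ C := (abs_nonneg _).trans (hC 0 ⟨le_rfl, hb.le⟩)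
  have hwb : ∀ r ∈ Icc (0 : ℝ) b, |w r| ≤ C * r := by
    intro r hr
    have := (convex_Icc (0 : ℝ) b).norm_image_sub_le_of_norm_hasDerivWithin_le
      (f := w) (f' := w') (C := C) (fun x _ => (hw x).hasDerivWithinAt)
      (fun x hx => by rw [Real.norm_eq_abs]; exact hC x hx) ⟨le_rfl, hb.le⟩ hr
    rw [h0, sub_zero, sub_zero, Real.norm_eq_abs, Real.norm_eq_abs, abs_of_nonneg hr.1] at this
    exact this
  rw [intervalIntegrable_iff_integrableOn_Ioc_of_le hb.le]
  refine Measure.integrableOn_of_bounded (M := C ^ 2 * b) (by simp) ?_ ?_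
  · exact ((hwc.measurable.pow_const 2).div measurable_id).aestronglyMeasurable
  · refine (ae_restrict_iff' measurableSet_Ioc).2 (Filter.Eventually.of_forall fun r hr => ?_)
    rw [Real.norm_eq_abs, abs_of_nonneg (div_nonneg (sq_nonneg _) hr.1.le), div_le_iff₀ hr.1]
    have k1 := hwb r ⟨hr.1.le, hr.2⟩
    have k2 : w r ^ 2 ≤ (C * r) ^ 2 := by
      rw [← sq_abs]
      exact pow_le_pow_left₀ (abs_nonneg _) k1 2
    have k3 : C ^ 2 * r * r ≤ C ^ 2 * b * r := by
      apply mul_le_mul_of_nonneg_right _ hr.1.le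
      exact mul_le_mul_of_nonneg_left hr.2 (sq_nonneg _)
    nlinarith

/-- derivative of `B m (x u²)` -/
theorem B_comp (m : ℕ) (x u : ℝ) :
    HasDerivAt (fun u : ℝ => B m (x * u ^ 2)) (-B (m + 1) (x * u ^ 2) * (x * (2 * u))) u := by
  have h1 : HasDerivAt (fun u : ℝ => x * u ^ 2) (x * (2 * u)) u := by
    have := (hasDerivAt_pow 2 u).const_mul x
    refine this.congr_deriv ?_
    push_cast
    ring
  exact (B_deriv m (x * u ^ 2)).comp u h1

/-- the mean of the regular solution, mode `0` -/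
theorem G_one {a lam α : ℝ} {y : ℝ → ℝ}
    (hy : ∀ r ∈ Icc 0 a, y r = α * B 0 (lam * r ^ 2 / 4)) {r : ℝ} (hr : r ∈ Icc 0 a) :
    G 1 y r = α * B 1 (lam * r ^ 2 / 4) / 2 := by
  unfold G
  have hBc : ∀ m, Continuous fun u : ℝ => B m (lam * r ^ 2 / 4 * u ^ 2) := fun m =>
    (B_cont m).comp (by fun_prop)
  have e1 : ∫ u in (0 : ℝ)..1, y (r * u) * u ^ 1 =
      ∫ u in (0 : ℝ)..1, α * B 0 (lam * r ^ 2 / 4 * u ^ 2) * u := by
    refine intervalIntegral.integral_congr fun u hu => ?_
    rw [uIcc_of_le zero_le_one] at hu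
    have hm : r * u ∈ Icc 0 a := by
      refine ⟨mul_nonneg hr.1 hu.1, ?_⟩
      have : r * u ≤ r * 1 := mul_le_mul_of_nonneg_left hu.2 hr.1
      linarith [hr.2]
    show y (r * u) * u ^ 1 = α * B 0 (lam * r ^ 2 / 4 * u ^ 2) * u
    rw [hy _ hm, pow_one, show lam * (r * u) ^ 2 / 4 = lam * r ^ 2 / 4 * u ^ 2 by ring]
  rw [e1]
  have hd : ∀ u ∈ uIcc (0 : ℝ) 1, HasDerivAt
      (fun u : ℝ => u ^ 2 * (α / 2) * B 1 (lam * r ^ 2 / 4 * u ^ 2))
      (α * B 0 (lam * r ^ 2 / 4 * u ^ 2) * u) u := by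
    intro u _
    have k1 := ((hasDerivAt_pow 2 u).mul_const (α / 2)).mul (B_comp 1 (lam * r ^ 2 / 4) u)
    refine k1.congr_deriv ?_
    have h := B_ode 0 (lam * r ^ 2 / 4 * u ^ 2)
    norm_num at h ⊢
    linear_combination (-(α * u)) * h
  have c1 : Continuous fun u : ℝ => α * B 0 (lam * r ^ 2 / 4 * u ^ 2) * u :=
    (continuous_const.mul (hBc 0)).mul continuous_id
  rw [intervalIntegral.integral_eq_sub_of_hasDerivAt hd (c1.intervalIntegrable 0 1)]
  norm_num
  ring

/-- the mean of the regular solution, mode `1` -/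
theorem G_two {a lam α : ℝ} {y : ℝ → ℝ}
    (hy : ∀ r ∈ Icc 0 a, y r = α * r * B 1 (lam * r ^ 2 / 4)) {r : ℝ} (hr : r ∈ Icc 0 a) :
    G 2 y r = α * r * B 2 (lam * r ^ 2 / 4) / 2 := by
  unfold G
  have hBc : ∀ m, Continuous fun u : ℝ => B m (lam * r ^ 2 / 4 * u ^ 2) := fun m =>
    (B_cont m).comp (by fun_prop)
  have e1 : ∫ u in (0 : ℝ)..1, y (r * u) * u ^ 2 =
      ∫ u in (0 : ℝ)..1, α * r * B 1 (lam * r ^ 2 / 4 * u ^ 2) * u ^ 3 := by
    refine intervalIntegral.integral_congr fun u hu => ?_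
    rw [uIcc_of_le zero_le_one] at hu
    have hm : r * u ∈ Icc 0 a := by
      refine ⟨mul_nonneg hr.1 hu.1, ?_⟩
      have : r * u ≤ r * 1 := mul_le_mul_of_nonneg_left hu.2 hr.1
      linarith [hr.2]
    show y (r * u) * u ^ 2 = α * r * B 1 (lam * r ^ 2 / 4 * u ^ 2) * u ^ 3
    rw [hy _ hm, show lam * (r * u) ^ 2 / 4 = lam * r ^ 2 / 4 * u ^ 2 by ring]
    ring
  rw [e1]
  have hd : ∀ u ∈ uIcc (0 : ℝ) 1, HasDerivAt
      (fun u : ℝ => u ^ 4 * (α * r / 2) * B 2 (lam * r ^ 2 / 4 * u ^ 2))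
      (α * r * B 1 (lam * r ^ 2 / 4 * u ^ 2) * u ^ 3) u := by
    intro u _
    have k1 := ((hasDerivAt_pow 4 u).mul_const (α * r / 2)).mul (B_comp 2 (lam * r ^ 2 / 4) u)
    refine k1.congr_deriv ?_
    have h := B_ode 1 (lam * r ^ 2 / 4 * u ^ 2)
    norm_num at h ⊢
    linear_combination (-(α * r * u ^ 3)) * h
  have c1 : Continuous fun u : ℝ => α * r * B 1 (lam * r ^ 2 / 4 * u ^ 2) * u ^ 3 :=
    (continuous_const.mul (hBc 1)).mul (continuous_pow 3)
  rw [intervalIntegral.integral_eq_sub_of_hasDerivAt hd (c1.intervalIntegrable 0 1)]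
  norm_num
  ring

end Mode01

open Mode01 Pool.Agent.TH298.Sch.Coer2 Pool.Agent.TH298.Sch.Coer3

theorem mode0 (h : Pool.Agent.TH298.AN.Mode) : Pool.Agent.TH298.AN.Mode0 := by
  intro a b lam ha0 hab hlam hB
  obtain ⟨κ, hκ, hM⟩ := h 2 a b lam one_le_two ha0 hab hlam hB
  refine ⟨κ, hκ, ?_⟩
  intro y y' α hy hy' hyb hya hm
  have hb : 0 < b := ha0.trans hab
  have hac : Continuous y := continuous_iff_continuousAt.2 (fun x => (hy x).continuousAt)
  set g : ℝ → ℝ := G 1 y with hg
  set g' : ℝ → ℝ := G 2 y' with hg'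
  have hgd : ∀ r, HasDerivAt g (g' r) r := fun r => G_deriv 1 hy hy' r
  have hgc : Continuous g := G_cont 1 hac
  have hgc' : Continuous g' := G_cont 2 hy'
  have hge : ∀ r, r * g' r + 2 * g r = y r := by
    intro r
    have := G_eq 1 hy hy' r
    push_cast at this
    rw [hg, hg']
    linarith
  have hgb : g b = 0 := G_b1 hb hm
  set t : ℝ → ℝ := fun r => y r - 2 * g r with ht
  set t' : ℝ → ℝ := fun r => y' r - 2 * g' r with ht'
  have htd : ∀ r, HasDerivAt t (t' r) r := fun r => (hy r).sub ((hgd r).const_mul 2)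
  have htc : Continuous t := hac.sub (hgc.const_mul 2)
  have htc' : Continuous t' := hy'.sub (hgc'.const_mul 2)
  have htg : ∀ r, t r = r * g' r := by
    intro r
    rw [ht]
    have := hge r
    simp only
    linarith
  have ht0 : t 0 = 0 := by rw [htg, zero_mul]
  have htb : t b = 0 := by rw [ht]; simp only [hyb, hgb]; ring
  have hta : ∀ r ∈ Icc 0 a, t r = (-(α * (lam / 4))) * r ^ 2 * B 2 (lam * r ^ 2 / 4) := by
    intro r hr
    have h1 : g r = α * B 1 (lam * r ^ 2 / 4) / 2 := G_one hya hr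
    have h2 := B_ode 0 (lam * r ^ 2 / 4)
    rw [ht]
    simp only
    rw [h1, hya r hr]
    norm_num at h2
    linear_combination α * h2
  have it : IntervalIntegrable (fun r => t r ^ 2 / r) volume 0 b := int_div hb htd htc' ht0
  have hrad := hM t t' _ htd htc' htb hta
  unfold ModeIneq at hrad ⊢
  -- `∫ r y² = ∫ r t²`
  have e1 : ∫ r in (0 : ℝ)..b, r * y r ^ 2 = ∫ r in (0 : ℝ)..b, r * t r ^ 2 := by
    have c1 : Continuous fun r => r * y r ^ 2 := by fun_prop
    have c2 : Continuous fun r => r * t r ^ 2 := by fun_prop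
    have hd : ∀ r ∈ uIcc (0 : ℝ) b, HasDerivAt (fun r => 2 * (r ^ 2 * g r ^ 2))
        (r * y r ^ 2 - r * t r ^ 2) r := by
      intro r _
      have k1 := ((hasDerivAt_pow 2 r).mul ((hgd r).pow 2)).const_mul 2
      refine k1.congr_deriv ?_
      have := hge r
      rw [ht]
      simp only
      rw [← this]
      push_cast
      simp only [Pi.pow_apply, pow_one]
      ring
    have h := intervalIntegral.integral_eq_sub_of_hasDerivAt hd
      ((c1.sub c2).intervalIntegrable 0 b)
    rw [intervalIntegral.integral_sub (c1.intervalIntegrable _ _) (c2.intervalIntegrable _ _),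
      hgb] at h
    norm_num at h
    linarith
  -- the energies
  have c1 : Continuous fun r => r * y' r ^ 2 := by fun_prop
  have c2 : Continuous fun r => r * t' r ^ 2 := by fun_prop
  have c4 : Continuous fun r => 4 * t r * t' r := by fun_prop
  have z2 : ∫ r in (0 : ℝ)..b, 4 * t r * t' r = 0 := by
    have hd : ∀ r ∈ uIcc (0 : ℝ) b, HasDerivAt (fun r => 2 * t r ^ 2) (4 * t r * t' r) r := by
      intro r _
      have k1 := ((htd r).pow 2).const_mul 2
      refine k1.congr_deriv ?_
      push_cast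
      simp only [pow_one]
      ring
    rw [intervalIntegral.integral_eq_sub_of_hasDerivAt hd (c4.intervalIntegrable 0 b), ht0, htb]
    ring
  have e2 : (∫ r in (0 : ℝ)..b, r * y' r ^ 2) =
      ∫ r in (0 : ℝ)..b, (r * t' r ^ 2 + 4 * (t r ^ 2 / r) + 4 * t r * t' r) := by
    rw [intervalIntegral.integral_of_le hb.le, intervalIntegral.integral_of_le hb.le]
    refine setIntegral_congr_fun measurableSet_Ioc fun r hr => ?_
    have hr0 : r ≠ 0 := hr.1.ne'
    have h2 : y' r = t' r + 2 * g' r := by rw [ht']; ring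
    rw [htg r, h2]
    field_simp
    ring
  rw [intervalIntegral.integral_add ((c2.intervalIntegrable _ _).add (it.const_mul 4))
    (c4.intervalIntegrable _ _), z2,
    intervalIntegral.integral_add (c2.intervalIntegrable _ _) (it.const_mul 4),
    intervalIntegral.integral_const_mul] at e2
  rw [e1, e2]
  push_cast at hrad ⊢
  linarith

theorem mode1 (h : Pool.Agent.TH298.AN.Mode) : Pool.Agent.TH298.AN.Mode1 := by
  intro a b lam ha0 hab hlam hB
  obtain ⟨κ, hκ, hM⟩ := h 3 a b lam (by norm_num) ha0 hab hlam hB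
  refine ⟨κ, hκ, ?_⟩
  intro y y' α hy hy' hyb hya hm
  have hb : 0 < b := ha0.trans hab
  have h0 : y 0 = 0 := by
    rw [hya 0 ⟨le_rfl, ha0.le⟩]
    ring
  have hac : Continuous y := continuous_iff_continuousAt.2 (fun x => (hy x).continuousAt)
  set g : ℝ → ℝ := G 2 y with hg
  set g' : ℝ → ℝ := G 3 y' with hg'
  have hgd : ∀ r, HasDerivAt g (g' r) r := fun r => G_deriv 2 hy hy' r
  have hgc : Continuous g := G_cont 2 hac
  have hgc' : Continuous g' := G_cont 3 hy'
  have hge : ∀ r, r * g' r + 3 * g r = y r := by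
    intro r
    have := G_eq 2 hy hy' r
    push_cast at this
    rw [hg, hg']
    linarith
  have hgb : g b = 0 := G_b hb hm
  have hg0 : g 0 = 0 := by
    have := hge 0
    rw [h0] at this
    linarith
  set t : ℝ → ℝ := fun r => y r - 4 * g r with ht
  set t' : ℝ → ℝ := fun r => y' r - 4 * g' r with ht'
  have htd : ∀ r, HasDerivAt t (t' r) r := fun r => (hy r).sub ((hgd r).const_mul 4)
  have htc : Continuous t := hac.sub (hgc.const_mul 4)
  have htc' : Continuous t' := hy'.sub (hgc'.const_mul 4)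
  have ht0 : t 0 = 0 := by rw [ht]; simp only [h0, hg0]; ring
  have htb : t b = 0 := by rw [ht]; simp only [hyb, hgb]; ring
  have hta : ∀ r ∈ Icc 0 a, t r = (-(α * (lam / 4))) * r ^ 3 * B 3 (lam * r ^ 2 / 4) := by
    intro r hr
    have h1 : g r = α * r * B 2 (lam * r ^ 2 / 4) / 2 := G_two hya hr
    have h2 := B_ode 1 (lam * r ^ 2 / 4)
    rw [ht]
    simp only
    rw [h1, hya r hr]
    norm_num at h2
    linear_combination (α * r) * h2
  have ia : IntervalIntegrable (fun r => y r ^ 2 / r) volume 0 b := int_div hb hy hy' h0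
  have it : IntervalIntegrable (fun r => t r ^ 2 / r) volume 0 b := int_div hb htd htc' ht0
  have hrad := hM t t' _ htd htc' htb hta
  unfold ModeIneq at hrad ⊢
  -- `∫ r y² = ∫ r t²`
  have e1 : ∫ r in (0 : ℝ)..b, r * y r ^ 2 = ∫ r in (0 : ℝ)..b, r * t r ^ 2 := by
    have c1 : Continuous fun r => r * y r ^ 2 := by fun_prop
    have c2 : Continuous fun r => r * t r ^ 2 := by fun_prop
    have hd : ∀ r ∈ uIcc (0 : ℝ) b, HasDerivAt (fun r => 4 * (r ^ 2 * g r ^ 2))
        (r * y r ^ 2 - r * t r ^ 2) r := by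
      intro r _
      have k1 := ((hasDerivAt_pow 2 r).mul ((hgd r).pow 2)).const_mul 4
      refine k1.congr_deriv ?_
      have := hge r
      rw [ht]
      simp only
      rw [← this]
      push_cast
      simp only [Pi.pow_apply, pow_one]
      ring
    have h := intervalIntegral.integral_eq_sub_of_hasDerivAt hd
      ((c1.sub c2).intervalIntegrable 0 b)
    rw [intervalIntegral.integral_sub (c1.intervalIntegrable _ _) (c2.intervalIntegrable _ _),
      hgb] at h
    norm_num at h
    linarith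
  -- the energies
  have c1 : Continuous fun r => r * y' r ^ 2 := by fun_prop
  have c2 : Continuous fun r => r * t' r ^ 2 := by fun_prop
  have c3 : Continuous fun r => 2 * y r * y' r := by fun_prop
  have c4 : Continuous fun r => 6 * t r * t' r := by fun_prop
  have z1 : ∫ r in (0 : ℝ)..b, 2 * y r * y' r = 0 := by
    have hd : ∀ r ∈ uIcc (0 : ℝ) b, HasDerivAt (fun r => y r ^ 2) (2 * y r * y' r) r := by
      intro r _
      have k1 := (hy r).pow 2
      refine k1.congr_deriv ?_
      push_cast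
      simp only [pow_one]
    rw [intervalIntegral.integral_eq_sub_of_hasDerivAt hd (c3.intervalIntegrable 0 b), h0, hyb]
    ring
  have z2 : ∫ r in (0 : ℝ)..b, 6 * t r * t' r = 0 := by
    have hd : ∀ r ∈ uIcc (0 : ℝ) b, HasDerivAt (fun r => 3 * t r ^ 2) (6 * t r * t' r) r := by
      intro r _
      have k1 := ((htd r).pow 2).const_mul 3
      refine k1.congr_deriv ?_
      push_cast
      simp only [pow_one]
      ring
    rw [intervalIntegral.integral_eq_sub_of_hasDerivAt hd (c4.intervalIntegrable 0 b), ht0, htb]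
    ring
  have e2 : (∫ r in (0 : ℝ)..b, (r * y' r ^ 2 + y r ^ 2 / r - 2 * y r * y' r)) =
      ∫ r in (0 : ℝ)..b, (r * t' r ^ 2 + 9 * (t r ^ 2 / r) + 6 * t r * t' r) := by
    rw [intervalIntegral.integral_of_le hb.le, intervalIntegral.integral_of_le hb.le]
    refine setIntegral_congr_fun measurableSet_Ioc fun r hr => ?_
    have hr0 : r ≠ 0 := hr.1.ne'
    have := hge r
    have hg'' : g' r = (y r - 3 * g r) / r := by
      field_simp
      linarith
    simp only [ht, ht']
    rw [hg'']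
    field_simp
    ring
  rw [intervalIntegral.integral_sub ((c1.intervalIntegrable _ _).add ia)
    (c3.intervalIntegrable _ _), intervalIntegral.integral_add (c1.intervalIntegrable _ _) ia,
    z1, intervalIntegral.integral_add ((c2.intervalIntegrable _ _).add (it.const_mul 9))
    (c4.intervalIntegrable _ _), z2,
    intervalIntegral.integral_add (c2.intervalIntegrable _ _) (it.const_mul 9),
    intervalIntegral.integral_const_mul] at e2
  rw [e1]
  push_cast at hrad ⊢
  linarith

end Pool.Agent.TH298.AN
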