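import Pool.Agent.TH298.AN.Defs
import Pool.Agent.TH298.Sch.Coer2

/-!
The circle modes of a solution of the Helmholtz equation on a disc (job 4048, helper89).
-/

set_option autoImplicit false

namespace Pool.Agent.TH298.AN

open MeasureTheory Set Real Pool.Agent.TH298.Sch TH259.NS
open scoped ContDiff

namespace ODEM

/-- the regular solution -/
noncomputable def ze (n : ℕ) (lam r : ℝ) : ℝ := r ^ n * B n (lam * r ^ 2 / 4)

/-- `r` times its derivative -/
noncomputable def pe (n : ℕ) (lam r : ℝ) : ℝ :=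
  r ^ n * (n * B n (lam * r ^ 2 / 4) - 2 * (lam * r ^ 2 / 4) * B (n + 1) (lam * r ^ 2 / 4))

lemma s_deriv (lam r : ℝ) : HasDerivAt (fun r => lam * r ^ 2 / 4) (lam * r / 2) r := by
  have := (((hasDerivAt_id r).pow 2).const_mul lam).div_const 4
  refine this.congr_deriv ?_
  simp only [id_eq]
  push_cast
  ring

lemma pow_deriv (n : ℕ) {r : ℝ} (hr : 0 < r) :
    HasDerivAt (fun r : ℝ => r ^ n) (n * r ^ n / r) r := by
  refine (hasDerivAt_pow n r).congr_deriv ?_
  cases n with
  | zero => simp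
  | succ n =>
    rw [Nat.add_sub_cancel, pow_succ]
    field_simp

lemma ze_deriv (n : ℕ) (lam : ℝ) {r : ℝ} (hr : 0 < r) :
    HasDerivAt (ze n lam) (pe n lam r / r) r := by
  have h1 := (pow_deriv n hr).mul ((B_deriv n _).comp r (s_deriv lam r))
  refine h1.congr_deriv ?_
  unfold pe
  simp only [Function.comp_apply]
  field_simp
  ring

lemma pe_deriv (n : ℕ) (lam : ℝ) {r : ℝ} (hr : 0 < r) :
    HasDerivAt (pe n lam) (((n : ℝ) ^ 2 - lam * r ^ 2) / r * ze n lam r) r := by
  have h1 := (pow_deriv n hr).mul (((((B_deriv n _).comp r (s_deriv lam r)).const_mul (n : ℝ))).sub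
    (((s_deriv lam r).const_mul 2).mul ((B_deriv (n + 1) _).comp r (s_deriv lam r))))
  refine h1.congr_deriv ?_
  unfold ze
  simp only [Function.comp_apply, Pi.sub_apply, Pi.mul_apply]
  have h2 := B_ode n (lam * r ^ 2 / 4)
  have h3 : B (n + 1 + 1) (lam * r ^ 2 / 4) = B (n + 2) (lam * r ^ 2 / 4) := rfl
  rw [h3]
  generalize B n (lam * r ^ 2 / 4) = b0 at *
  generalize B (n + 1) (lam * r ^ 2 / 4) = b1 at *
  generalize B (n + 2) (lam * r ^ 2 / 4) = b2 at *
  field_simp
  linear_combination (8 * (lam * r ^ 2)) * h2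

lemma ze_cont (n : ℕ) (lam : ℝ) : Continuous (ze n lam) := by
  unfold ze
  have := B_cont n
  fun_prop

lemma pe_cont (n : ℕ) (lam : ℝ) : Continuous (pe n lam) := by
  unfold pe
  have := B_cont n
  have := B_cont (n + 1)
  fun_prop

lemma pe_zero (n : ℕ) (lam : ℝ) : pe n lam 0 = 0 := by
  unfold pe
  cases n with
  | zero => simp
  | succ n => simp

theorem ode_mult {n : ℕ} {a lam : ℝ} (ha : 0 < a) (hlam : 0 < lam) {y Y : ℝ → ℝ}
    (hyc : ContinuousOn y (Icc 0 a)) (hYc : ContinuousOn Y (Icc 0 a)) (hY0 : Y 0 = 0)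
    (hy : ∀ r ∈ Ioo 0 a, HasDerivAt y (Y r / r) r)
    (hY : ∀ r ∈ Ioo 0 a, HasDerivAt Y (((n : ℝ) ^ 2 - lam * r ^ 2) / r * y r) r) :
    ∃ α : ℝ, ∀ r ∈ Icc 0 a, y r = α * r ^ n * B n (lam * r ^ 2 / 4) := by
  -- the Wronskian
  have hW : ∀ r ∈ Icc 0 a, Y r * ze n lam r - y r * pe n lam r = 0 := by
    intro r hr
    rcases hr.1.eq_or_lt with h0 | h0
    · rw [← h0, hY0, pe_zero]; ring
    · have hc : ContinuousOn (fun r => Y r * ze n lam r - y r * pe n lam r) (Icc 0 r) :=
        ((hYc.mul (ze_cont n lam).continuousOn).sub (hyc.mul (pe_cont n lam).continuousOn)).mono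
          (Icc_subset_Icc_right hr.2)
      obtain ⟨c, hc1, hc2⟩ := exists_hasDerivAt_eq_slope
        (fun r => Y r * ze n lam r - y r * pe n lam r) (fun _ => 0) h0 hc (by
          intro x hx
          have hxa : x ∈ Ioo 0 a := ⟨hx.1, hx.2.trans_le hr.2⟩
          have h1 := ((hY x hxa).mul (ze_deriv n lam hx.1)).sub
            ((hy x hxa).mul (pe_deriv n lam hx.1))
          refine h1.congr_deriv ?_
          ring)
      have h2 : (Y r * ze n lam r - y r * pe n lam r) - (Y 0 * ze n lam 0 - y 0 * pe n lam 0) = 0 := by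
        have h3 : r - 0 ≠ 0 := by linarith
        exact (div_eq_zero_iff.1 hc2.symm).resolve_right h3
      rw [hY0, pe_zero] at h2
      linarith
  -- positivity near zero
  obtain ⟨r0, hr0, hr0a, hpos⟩ : ∃ r0 : ℝ, 0 < r0 ∧ r0 < a ∧
      ∀ r ∈ Ioc 0 r0, 0 < B n (lam * r ^ 2 / 4) := by
    have h1 : ContinuousAt (fun r : ℝ => B n (lam * r ^ 2 / 4)) 0 := by
      have := B_cont n
      fun_prop
    have h2 : (0 : ℝ) < B n (lam * 0 ^ 2 / 4) := by
      have : lam * (0 : ℝ) ^ 2 / 4 = 0 := by ring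
      rw [this, B_zero]
      positivity
    have h3 := h1.eventually (lt_mem_nhds h2)
    obtain ⟨ε, hε, h4⟩ := Metric.eventually_nhds_iff.1 h3
    refine ⟨min (ε / 2) (a / 2), by positivity, ?_, ?_⟩
    · exact (min_le_right _ _).trans_lt (by linarith)
    · intro r hr
      apply h4
      rw [Real.dist_eq, sub_zero, abs_of_pos hr.1]
      have := hr.2.trans (min_le_left _ _)
      linarith
  have hzpos : ∀ r ∈ Ioc 0 r0, 0 < ze n lam r := fun r hr =>
    mul_pos (pow_pos hr.1 n) (hpos r hr)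
  have hzr0 := hzpos r0 ⟨hr0, le_rfl⟩
  obtain ⟨α, hα⟩ : ∃ α : ℝ, α = y r0 / ze n lam r0 := ⟨_, rfl⟩
  refine ⟨α, ?_⟩
  have hα' : y r0 = α * ze n lam r0 := by rw [hα]; field_simp
  -- the quotient is constant on `(0, r0]`
  have hA : ∀ r ∈ Ioc 0 r0, y r = α * ze n lam r := by
    intro r hr
    rcases hr.2.eq_or_lt with h0 | h0
    · rw [h0]; exact hα'
    · have hsub : Icc r r0 ⊆ Icc 0 a := Icc_subset_Icc hr.1.le hr0a.le
      have hc : ContinuousOn (fun r => y r / ze n lam r) (Icc r r0) :=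
        (hyc.mono hsub).div (ze_cont n lam).continuousOn
          (fun x hx => (hzpos x ⟨hr.1.trans_le hx.1, hx.2⟩).ne')
      obtain ⟨c, hc1, hc2⟩ := exists_hasDerivAt_eq_slope
        (fun r => y r / ze n lam r) (fun _ => 0) h0 hc (by
          intro x hx
          have hx0 : 0 < x := hr.1.trans hx.1
          have hxa : x ∈ Ioo 0 a := ⟨hx0, hx.2.trans hr0a⟩
          have hz := hzpos x ⟨hx0, hx.2.le⟩
          have h1 := (hy x hxa).div (ze_deriv n lam hx0) hz.ne'
          refine h1.congr_deriv ?_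
          have h2 := hW x ⟨hx0.le, hxa.2.le⟩
          rw [div_eq_zero_iff]
          left
          field_simp
          linarith)
      have h2 : y r0 / ze n lam r0 - y r / ze n lam r = 0 := by
        have h3 : r0 - r ≠ 0 := by linarith
        exact (div_eq_zero_iff.1 hc2.symm).resolve_right h3
      have h4 : y r / ze n lam r = α := by rw [hα]; linarith
      rw [← h4]
      field_simp [(hzpos r hr).ne']
  -- Gronwall
  have hB : ∀ r ∈ Ioo r0 a, y r = α * ze n lam r := by
    intro r hr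
    set f : ℝ → ℝ × ℝ := fun x => (y x - α * ze n lam x, Y x - α * pe n lam x) with hf
    set f' : ℝ → ℝ × ℝ := fun x => ((Y x - α * pe n lam x) / x,
      ((n : ℝ) ^ 2 - lam * x ^ 2) / x * (y x - α * ze n lam x)) with hf'
    set K : ℝ := (1 + (n : ℝ) ^ 2 + lam * a ^ 2) / r0 with hK
    have hsub : Icc r0 r ⊆ Icc 0 a := Icc_subset_Icc hr0.le hr.2.le
    have hd : ∀ x ∈ Ico r0 r, HasDerivWithinAt f (f' x) (Ici x) x := by
      intro x hx
      have hx0 : 0 < x := hr0.trans_le hx.1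
      have hxa : x ∈ Ioo 0 a := ⟨hx0, hx.2.trans hr.2⟩
      have h1 := (hy x hxa).sub ((ze_deriv n lam hx0).const_mul α)
      have h2 := (hY x hxa).sub ((pe_deriv n lam hx0).const_mul α)
      refine ((h1.prodMk h2).congr_deriv ?_).hasDerivWithinAt
      rw [hf']
      simp only
      congr 1 <;> ring
    have hcont : ContinuousOn f (Icc r0 r) := by
      refine ContinuousOn.prodMk ?_ ?_
      · exact (hyc.mono hsub).sub ((ze_cont n lam).const_mul α).continuousOn
      · exact (hYc.mono hsub).sub ((pe_cont n lam).const_mul α).continuousOn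
    have h0 : ‖f r0‖ ≤ 0 := by
      have h1 : y r0 - α * ze n lam r0 = 0 := by rw [hα']; ring
      have h2 : Y r0 - α * pe n lam r0 = 0 := by
        have h3 := hW r0 ⟨hr0.le, hr0a.le⟩
        rw [hα'] at h3
        have h4 : ze n lam r0 * (Y r0 - α * pe n lam r0) = 0 := by linarith
        exact (mul_eq_zero.1 h4).resolve_left hzr0.ne'
      rw [hf]
      simp only [h1, h2]
      simp
    have hb : ∀ x ∈ Ico r0 r, ‖f' x‖ ≤ K * ‖f x‖ + 0 := by
      intro x hx
      have hx0 : 0 < x := hr0.trans_le hx.1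
      have hxa : x < a := hx.2.trans hr.2
      have hn1 : |y x - α * ze n lam x| ≤ ‖f x‖ := norm_fst_le (f x)
      have hn2 : |Y x - α * pe n lam x| ≤ ‖f x‖ := norm_snd_le (f x)
      have hnn : 0 ≤ ‖f x‖ := norm_nonneg _
      rw [add_zero]
      refine max_le ?_ ?_
      · rw [hf']
        simp only
        rw [Real.norm_eq_abs, abs_div, abs_of_pos hx0, hK, div_mul_eq_mul_div, div_le_div_iff₀ hx0 hr0]
        have h1 : (0 : ℝ) ≤ (n : ℝ) ^ 2 + lam * a ^ 2 := by positivity
        calc |Y x - α * pe n lam x| * r0 ≤ ‖f x‖ * x :=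
              mul_le_mul hn2 hx.1 hr0.le hnn
          _ ≤ (1 + (n : ℝ) ^ 2 + lam * a ^ 2) * ‖f x‖ * x := by
              have : 0 ≤ ((n : ℝ) ^ 2 + lam * a ^ 2) * (‖f x‖ * x) := by positivity
              nlinarith
      · rw [hf']
        simp only
        rw [Real.norm_eq_abs, abs_mul, abs_div, abs_of_pos hx0, hK]
        have h1 : |(n : ℝ) ^ 2 - lam * x ^ 2| ≤ 1 + (n : ℝ) ^ 2 + lam * a ^ 2 := by
          have h2 : x ^ 2 ≤ a ^ 2 := pow_le_pow_left₀ hx0.le hxa.le 2
          have h3 : lam * x ^ 2 ≤ lam * a ^ 2 := mul_le_mul_of_nonneg_left h2 hlam.le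
          have h4 : 0 ≤ lam * x ^ 2 := by positivity
          have h5 : (0 : ℝ) ≤ (n : ℝ) ^ 2 := by positivity
          rw [abs_le]
          constructor <;> linarith
        have h6 : |(n : ℝ) ^ 2 - lam * x ^ 2| / x ≤ (1 + (n : ℝ) ^ 2 + lam * a ^ 2) / r0 :=
          div_le_div₀ (by positivity) h1 hr0 hx.1
        exact mul_le_mul h6 hn1 (abs_nonneg _) (by positivity)
    have h2 := norm_le_gronwallBound_of_norm_deriv_right_le hcont hd h0 hb r ⟨hr.1.le, le_rfl⟩
    rw [gronwallBound_ε0, zero_mul] at h2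
    have h3 : |y r - α * ze n lam r| ≤ ‖f r‖ := norm_fst_le (f r)
    have h4 : |y r - α * ze n lam r| = 0 := le_antisymm (h3.trans h2) (abs_nonneg _)
    have := abs_eq_zero.1 h4
    linarith
  have hC : EqOn y (fun r => α * ze n lam r) (Ioo 0 a) := by
    intro r hr
    rcases le_or_gt r r0 with h | h
    · exact hA r ⟨hr.1, h⟩
    · exact hB r ⟨h, hr.2⟩
  have hD := hC.of_subset_closure hyc ((ze_cont n lam).const_mul α).continuousOn
    Ioo_subset_Icc_self (by rw [closure_Ioo ha.ne])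
  intro r hr
  rw [hD hr]
  unfold ze
  ring

/-! ### The modes -/

lemma er_cont : Continuous er := by unfold er; fun_prop

lemma et_cont : Continuous et := by unfold et; fun_prop

lemma et_deriv (θ : ℝ) : HasDerivAt et (-er θ) θ := by
  have h1 : HasDerivAt (fun θ : ℝ => ((Real.cos θ : ℝ) : ℂ)) ((-Real.sin θ : ℝ) : ℂ) θ :=
    (Real.hasDerivAt_cos θ).ofReal_comp
  have h2 : HasDerivAt (fun θ : ℝ => ((Real.sin θ : ℝ) : ℂ)) ((Real.cos θ : ℝ) : ℂ) θ :=
    (Real.hasDerivAt_sin θ).ofReal_comp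
  have := h2.neg.add (h1.mul_const Complex.I)
  refine this.congr_deriv ?_
  unfold er
  push_cast
  ring

/-- the trace of a bilinear form -/
lemma tr_er (T : ℂ →L[ℝ] ℂ →L[ℝ] ℝ) (θ : ℝ) :
    T (er θ) (er θ) + T (et θ) (et θ) = T 1 1 + T Complex.I Complex.I := by
  have h1 : er θ = (cos θ) • (1 : ℂ) + (sin θ) • Complex.I := by
    unfold er
    simp [Complex.real_smul]
  have h2 : et θ = (-sin θ) • (1 : ℂ) + (cos θ) • Complex.I := by
    unfold et
    simp [Complex.real_smul]
  rw [h1, h2]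
  simp only [map_add, map_smul, add_apply, smul_apply, smul_eq_mul]
  have := sin_sq_add_cos_sq θ
  linear_combination (T 1 1 + T Complex.I Complex.I) * this

variable {v : ℂ → ℝ}

theorem mode {a lam : ℝ} (ha : 0 < a) (hlam : 0 < lam) (hv : ContDiff ℝ (⊤ : ℕ∞) v)
    (hH : ∀ x : ℂ, ‖x‖ < a → dd 1 (dd 1 v) x + dd Complex.I (dd Complex.I v) x = -(lam * v x))
    (n : ℕ) {w w1 : ℝ → ℝ} (hw : ∀ θ, HasDerivAt w (w1 θ) θ)
    (hw1 : ∀ θ, HasDerivAt w1 (-((n : ℝ) ^ 2 * w θ)) θ) (hwp : w π = w (-π))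
    (hw1p : w1 π = w1 (-π)) :
    ∃ α : ℝ, ∀ r ∈ Icc 0 a, ∫ θ in (-π)..π, v (X r θ) * w θ =
      α * r ^ n * B n (lam * r ^ 2 / 4) := by
  have hwc : Continuous w := continuous_iff_continuousAt.2 fun x => (hw x).continuousAt
  have hw1c : Continuous w1 := continuous_iff_continuousAt.2 fun x => (hw1 x).continuousAt
  have hd1 : ContDiff ℝ (⊤ : ℕ∞) (fderiv ℝ v) := hv.fderiv_right (by simp)
  have hd2 : ContDiff ℝ (⊤ : ℕ∞) (fderiv ℝ (fderiv ℝ v)) := hd1.fderiv_right (by simp)
  have hv1 : ∀ x, HasFDerivAt v (fderiv ℝ v x) x := fun x =>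
    (hv.differentiable (by simp) x).hasFDerivAt
  have hv2 : ∀ x, HasFDerivAt (fderiv ℝ v) (fderiv ℝ (fderiv ℝ v) x) x := fun x =>
    (hd1.differentiable (by simp) x).hasFDerivAt
  have hXc := X_cont
  have cX : Continuous fun p : ℝ × ℝ => v (X p.1 p.2) := hv.continuous.comp hXc
  have cR : Continuous fun p : ℝ × ℝ => fderiv ℝ v (X p.1 p.2) (er p.2) :=
    (hd1.continuous.comp hXc).clm_apply (er_cont.comp continuous_snd)
  have cT : Continuous fun p : ℝ × ℝ => fderiv ℝ v (X p.1 p.2) (et p.2) :=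
    (hd1.continuous.comp hXc).clm_apply (et_cont.comp continuous_snd)
  have cRR : Continuous fun p : ℝ × ℝ =>
      fderiv ℝ (fderiv ℝ v) (X p.1 p.2) (er p.2) (er p.2) :=
    ((hd2.continuous.comp hXc).clm_apply (er_cont.comp continuous_snd)).clm_apply
      (er_cont.comp continuous_snd)
  have cTT : Continuous fun p : ℝ × ℝ =>
      fderiv ℝ (fderiv ℝ v) (X p.1 p.2) (et p.2) (et p.2) :=
    ((hd2.continuous.comp hXc).clm_apply (et_cont.comp continuous_snd)).clm_apply
      (et_cont.comp continuous_snd)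
  have dr : ∀ r θ : ℝ, HasDerivAt (fun r : ℝ => v (X r θ)) (fderiv ℝ v (X r θ) (er θ)) r :=
    fun r θ => (hv1 (X r θ)).comp_hasDerivAt r (X_dr r θ)
  have drr : ∀ r θ : ℝ, HasDerivAt (fun r : ℝ => fderiv ℝ v (X r θ) (er θ))
      (fderiv ℝ (fderiv ℝ v) (X r θ) (er θ) (er θ)) r := by
    intro r θ
    have h1 := (hv2 (X r θ)).comp_hasDerivAt r (X_dr r θ)
    have h2 := h1.clm_apply (hasDerivAt_const r (er θ))
    refine h2.congr_deriv ?_
    simp
  have sm : ∀ r θ : ℝ, (r : ℂ) * et θ = r • et θ := fun r θ => (Complex.real_smul).symm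
  have dt : ∀ r θ : ℝ, HasDerivAt (fun θ : ℝ => v (X r θ)) (r * fderiv ℝ v (X r θ) (et θ)) θ := by
    intro r θ
    have h1 := (hv1 (X r θ)).comp_hasDerivAt θ (X_dt r θ)
    refine h1.congr_deriv ?_
    rw [sm, map_smul, smul_eq_mul]
  have dtt : ∀ r θ : ℝ, HasDerivAt (fun θ : ℝ => r * fderiv ℝ v (X r θ) (et θ))
      (r ^ 2 * fderiv ℝ (fderiv ℝ v) (X r θ) (et θ) (et θ) - r * fderiv ℝ v (X r θ) (er θ)) θ := by
    intro r θ
    have h1 := (hv2 (X r θ)).comp_hasDerivAt θ (X_dt r θ)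
    have h2 := (h1.clm_apply (et_deriv θ)).const_mul r
    refine h2.congr_deriv ?_
    rw [sm, map_smul]
    simp only [smul_apply, smul_eq_mul, map_neg, Function.comp_apply]
    ring
  have dI : ∀ r, HasDerivAt (fun r => ∫ θ in (-π)..π, v (X r θ) * w θ)
      (∫ θ in (-π)..π, fderiv ℝ v (X r θ) (er θ) * w θ) r :=
    fun r => Coer2.param_deriv (V := fun r θ => v (X r θ))
      (D := fun r θ => fderiv ℝ v (X r θ) (er θ)) cX cR dr hwc r
  have dI1 : ∀ r, HasDerivAt (fun r => ∫ θ in (-π)..π, fderiv ℝ v (X r θ) (er θ) * w θ)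
      (∫ θ in (-π)..π, fderiv ℝ (fderiv ℝ v) (X r θ) (er θ) (er θ) * w θ) r :=
    fun r => Coer2.param_deriv (V := fun r θ => fderiv ℝ v (X r θ) (er θ))
      (D := fun r θ => fderiv ℝ (fderiv ℝ v) (X r θ) (er θ) (er θ)) cR cRR drr hwc r
  set I0 : ℝ → ℝ := fun r => ∫ θ in (-π)..π, v (X r θ) * w θ with hI0
  set I1 : ℝ → ℝ := fun r => ∫ θ in (-π)..π, fderiv ℝ v (X r θ) (er θ) * w θ with hI1
  set I2 : ℝ → ℝ := fun r => ∫ θ in (-π)..π,
    fderiv ℝ (fderiv ℝ v) (X r θ) (er θ) (er θ) * w θ with hI2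
  have per : ∀ r, X r π = X r (-π) := by intro r; unfold X; simp
  have peret : et π = et (-π) := by unfold et; simp
  -- the differential equation
  have key : ∀ r, 0 ≤ r → r < a → r ^ 2 * I2 r + r * I1 r = ((n : ℝ) ^ 2 - lam * r ^ 2) * I0 r := by
    intro r hr hra
    have sl : ∀ {g : ℝ × ℝ → ℝ}, Continuous g → Continuous fun θ : ℝ => g (r, θ) :=
      fun hg => hg.comp (continuous_const.prodMk continuous_id)
    have c0 : Continuous fun θ : ℝ => v (X r θ) := sl cX
    have c1 : Continuous fun θ : ℝ => fderiv ℝ v (X r θ) (er θ) := sl cR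
    have c2 : Continuous fun θ : ℝ => fderiv ℝ v (X r θ) (et θ) := sl cT
    have c3 : Continuous fun θ : ℝ => fderiv ℝ (fderiv ℝ v) (X r θ) (er θ) (er θ) := sl cRR
    have c4 : Continuous fun θ : ℝ => fderiv ℝ (fderiv ℝ v) (X r θ) (et θ) (et θ) := sl cTT
    -- integration by parts
    have p1 := intervalIntegral.integral_mul_deriv_eq_deriv_mul (a := -π) (b := π)
      (u := w) (v := fun θ : ℝ => r * fderiv ℝ v (X r θ) (et θ)) (u' := w1)
      (v' := fun θ => r ^ 2 * fderiv ℝ (fderiv ℝ v) (X r θ) (et θ) (et θ) -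
        r * fderiv ℝ v (X r θ) (er θ))
      (fun θ _ => hw θ) (fun θ _ => dtt r θ) (hw1c.intervalIntegrable _ _)
      ((by fun_prop : Continuous fun θ : ℝ => r ^ 2 *
        fderiv ℝ (fderiv ℝ v) (X r θ) (et θ) (et θ) - r * fderiv ℝ v (X r θ) (er θ)).intervalIntegrable _ _)
    have p2 := intervalIntegral.integral_mul_deriv_eq_deriv_mul (a := -π) (b := π)
      (u := w1) (v := fun θ : ℝ => v (X r θ)) (u' := fun θ => -((n : ℝ) ^ 2 * w θ))
      (v' := fun θ : ℝ => r * fderiv ℝ v (X r θ) (et θ))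
      (fun θ _ => hw1 θ) (fun θ _ => dt r θ)
      ((by fun_prop : Continuous fun θ : ℝ => -((n : ℝ) ^ 2 * w θ)).intervalIntegrable _ _)
      ((by fun_prop : Continuous fun θ : ℝ =>
        r * fderiv ℝ v (X r θ) (et θ)).intervalIntegrable _ _)
    rw [per, peret, hwp, sub_self, zero_sub] at p1
    rw [per, hw1p, sub_self, zero_sub] at p2
    rw [p2, neg_neg] at p1
    have q1 : ∫ θ in (-π)..π, -((n : ℝ) ^ 2 * w θ) * v (X r θ) = -((n : ℝ) ^ 2 * I0 r) := by
      rw [hI0]
      simp only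
      rw [← intervalIntegral.integral_const_mul, ← intervalIntegral.integral_neg]
      refine intervalIntegral.integral_congr fun θ _ => ?_
      ring
    rw [q1] at p1
    have q2 : ∫ θ in (-π)..π, w θ * (r ^ 2 * fderiv ℝ (fderiv ℝ v) (X r θ) (et θ) (et θ) -
        r * fderiv ℝ v (X r θ) (er θ)) =
        r ^ 2 * (∫ θ in (-π)..π, fderiv ℝ (fderiv ℝ v) (X r θ) (et θ) (et θ) * w θ) -
          r * I1 r := by
      rw [hI1]
      simp only
      rw [← intervalIntegral.integral_const_mul, ← intervalIntegral.integral_const_mul,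
        ← intervalIntegral.integral_sub
          ((by fun_prop : Continuous fun θ : ℝ => r ^ 2 *
            (fderiv ℝ (fderiv ℝ v) (X r θ) (et θ) (et θ) * w θ)).intervalIntegrable _ _)
          ((by fun_prop : Continuous fun θ : ℝ => r *
            (fderiv ℝ v (X r θ) (er θ) * w θ)).intervalIntegrable _ _)]
      refine intervalIntegral.integral_congr fun θ _ => ?_
      ring
    rw [q2] at p1
    have q3 : I2 r + (∫ θ in (-π)..π, fderiv ℝ (fderiv ℝ v) (X r θ) (et θ) (et θ) * w θ) =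
        -(lam * I0 r) := by
      rw [hI2, hI0]
      simp only
      rw [← intervalIntegral.integral_const_mul, ← intervalIntegral.integral_neg,
        ← intervalIntegral.integral_add
          ((by fun_prop : Continuous fun θ : ℝ =>
            fderiv ℝ (fderiv ℝ v) (X r θ) (er θ) (er θ) * w θ).intervalIntegrable _ _)
          ((by fun_prop : Continuous fun θ : ℝ =>
            fderiv ℝ (fderiv ℝ v) (X r θ) (et θ) (et θ) * w θ).intervalIntegrable _ _)]
      refine intervalIntegral.integral_congr fun θ _ => ?_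
      have h1 := hH (X r θ) (by rw [norm_X, abs_of_nonneg hr]; exact hra)
      have h2 : ∀ h : ℂ, dd h (dd h v) (X r θ) = fderiv ℝ (fderiv ℝ v) (X r θ) h h := by
        intro h
        have h3 : HasFDerivAt (dd h v)
            ((ContinuousLinearMap.apply ℝ ℝ h).comp (fderiv ℝ (fderiv ℝ v) (X r θ))) (X r θ) :=
          (ContinuousLinearMap.apply ℝ ℝ h).hasFDerivAt.comp _ (hv2 (X r θ))
        unfold dd at h3 ⊢
        rw [h3.fderiv]
        rfl
      rw [h2, h2, ← tr_er _ θ] at h1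
      rw [← add_mul, h1]
      ring
    linear_combination r ^ 2 * q3 - p1
  -- conclusion
  have hI0c : Continuous I0 := continuous_iff_continuousAt.2 fun x => (dI x).continuousAt
  have hI1c : Continuous I1 := continuous_iff_continuousAt.2 fun x => (dI1 x).continuousAt
  refine ode_mult (Y := fun r => r * I1 r) ha hlam hI0c.continuousOn
    (continuous_id.mul hI1c).continuousOn (by simp) ?_ ?_
  · intro r hr
    refine (dI r).congr_deriv ?_
    have := hr.1.ne'
    field_simp
    rfl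
  · intro r hr
    have h1 := (hasDerivAt_id r).mul (dI1 r)
    refine h1.congr_deriv ?_
    have h2 := key r hr.1.le hr.2
    have := hr.1.ne'
    simp only [id_eq, one_mul]
    change I1 r + r * I2 r = _
    rw [div_mul_eq_mul_div, ← h2]
    field_simp
    ring

end ODEM

theorem odem : Pool.Agent.TH298.AN.Odem := by
  intro a lam v ha hlam hv hH n
  constructor
  · refine ODEM.mode ha hlam hv hH n (w := fun θ => cos (n * θ)) (w1 := fun θ => -(n * sin (n * θ)))
      ?_ ?_ ?_ ?_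
    · intro θ
      have h1 : HasDerivAt (fun θ : ℝ => (n : ℝ) * θ) n θ := by
        simpa using (hasDerivAt_id θ).const_mul (n : ℝ)
      refine h1.cos.congr_deriv ?_
      ring
    · intro θ
      have h1 : HasDerivAt (fun θ : ℝ => (n : ℝ) * θ) n θ := by
        simpa using (hasDerivAt_id θ).const_mul (n : ℝ)
      refine (h1.sin.const_mul (n : ℝ)).neg.congr_deriv ?_
      ring
    · simp only [mul_neg, cos_neg]
    · simp only [mul_neg, sin_neg, sin_nat_mul_pi, mul_zero, neg_zero]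
  · refine ODEM.mode ha hlam hv hH n (w := fun θ => sin (n * θ)) (w1 := fun θ => n * cos (n * θ))
      ?_ ?_ ?_ ?_
    · intro θ
      have h1 : HasDerivAt (fun θ : ℝ => (n : ℝ) * θ) n θ := by
        simpa using (hasDerivAt_id θ).const_mul (n : ℝ)
      refine h1.sin.congr_deriv ?_
      ring
    · intro θ
      have h1 : HasDerivAt (fun θ : ℝ => (n : ℝ) * θ) n θ := by
        simpa using (hasDerivAt_id θ).const_mul (n : ℝ)
      refine (h1.cos.const_mul (n : ℝ)).congr_deriv ?_
      ring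
    · simp only [mul_neg, sin_neg, sin_nat_mul_pi, neg_zero]
    · simp only [mul_neg, cos_neg]

end Pool.Agent.TH298.AN
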