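import Mathlib
import Pool.Agent.TH298.AN.Defs
import Pool.Agent.TH298.Sch.Coer2

/-!
The coercivity inequality from the mode inequalities.
-/

set_option autoImplicit false

namespace Pool.Agent.TH298.AN

open MeasureTheory Set Real Pool.Agent.TH298.Sch TH259.NS
open scoped ContDiff

theorem mode_mono {μ μ' b : ℝ} (hb : 0 < b) {n : ℕ} {y y' : ℝ → ℝ} (h : ModeIneq μ b n y y')
    (hμ : μ' ≤ μ) : ModeIneq μ' b n y y' := by
  unfold ModeIneq at h ⊢
  refine le_trans (mul_le_mul_of_nonneg_right hμ ?_) h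
  exact intervalIntegral.integral_nonneg hb.le fun r hr => mul_nonneg hr.1 (sq_nonneg _)

theorem mode_large {μ b : ℝ} (hb : 0 < b) {n : ℕ} (hμ : μ * b ^ 2 ≤ (n : ℝ) ^ 2)
    {y y' : ℝ → ℝ} (hy : ∀ r, HasDerivAt y (y' r) r) (hy' : Continuous y') (h0 : y 0 = 0) :
    ModeIneq μ b n y y' := by
  have hyc : Continuous y := continuous_iff_continuousAt.2 fun x => (hy x).continuousAt
  obtain ⟨Y, hY⟩ : ∃ Y : ℝ → ℝ, Y = fun r => ∫ u in (0 : ℝ)..1, y' (r * u) := ⟨_, rfl⟩
  have hYc : Continuous Y := by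
    rw [hY]
    exact intervalIntegral.continuous_parametric_intervalIntegral_of_continuous' (by fun_prop) 0 1
  have hyY : ∀ r, y r = r * Y r := by
    intro r
    have k1 : ∀ u ∈ uIcc (0 : ℝ) 1, HasDerivAt (fun u : ℝ => y (r * u)) (r * y' (r * u)) u := by
      intro u _
      have h1 : HasDerivAt (fun u : ℝ => r * u) r u := by
        simpa using (hasDerivAt_id u).const_mul r
      refine ((hy (r * u)).comp u h1).congr_deriv ?_
      ring
    have c1 : Continuous fun u : ℝ => r * y' (r * u) := by fun_prop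
    have := intervalIntegral.integral_eq_sub_of_hasDerivAt k1 (c1.intervalIntegrable 0 1)
    rw [intervalIntegral.integral_const_mul, mul_one, mul_zero, h0, sub_zero] at this
    rw [hY]
    exact this.symm
  have e1 : ∀ r, y r ^ 2 / r = r * Y r ^ 2 := by
    intro r
    rw [hyY]
    by_cases hr : r = 0
    · rw [hr]; simp
    · field_simp
  have e2 : ∀ r, r * y r ^ 2 = r ^ 2 * (r * Y r ^ 2) := by
    intro r
    rw [hyY]
    ring
  unfold ModeIneq
  simp only [e1, e2]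
  have c2 : Continuous fun r : ℝ => r ^ 2 * (r * Y r ^ 2) := by fun_prop
  have c3 : Continuous fun r : ℝ => r * Y r ^ 2 := by fun_prop
  have h1 : 0 ≤ ∫ r in (0 : ℝ)..b, r * y' r ^ 2 :=
    intervalIntegral.integral_nonneg hb.le fun r hr => mul_nonneg hr.1 (sq_nonneg _)
  have h3 : 0 ≤ ∫ r in (0 : ℝ)..b, r * Y r ^ 2 :=
    intervalIntegral.integral_nonneg hb.le fun r hr => mul_nonneg hr.1 (sq_nonneg _)
  have h2 : ∫ r in (0 : ℝ)..b, r ^ 2 * (r * Y r ^ 2) ≤ b ^ 2 * ∫ r in (0 : ℝ)..b, r * Y r ^ 2 := by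
    rw [← intervalIntegral.integral_const_mul]
    refine intervalIntegral.integral_mono_on hb.le (c2.intervalIntegrable _ _)
      ((c3.const_mul _).intervalIntegrable _ _) fun r hr => ?_
    have : r ^ 2 ≤ b ^ 2 := by
      have := hr.1
      have := hr.2
      nlinarith
    exact mul_le_mul_of_nonneg_right this (mul_nonneg hr.1 (sq_nonneg _))
  have h4 : 0 ≤ ∫ r in (0 : ℝ)..b, r ^ 2 * (r * Y r ^ 2) :=
    intervalIntegral.integral_nonneg hb.le fun r hr =>
      mul_nonneg (sq_nonneg _) (mul_nonneg hr.1 (sq_nonneg _))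
  by_cases hm : 0 ≤ μ
  · have h5 : μ * ∫ r in (0 : ℝ)..b, r ^ 2 * (r * Y r ^ 2) ≤
        μ * (b ^ 2 * ∫ r in (0 : ℝ)..b, r * Y r ^ 2) := mul_le_mul_of_nonneg_left h2 hm
    have h6 : μ * (b ^ 2 * ∫ r in (0 : ℝ)..b, r * Y r ^ 2) ≤
        (n : ℝ) ^ 2 * ∫ r in (0 : ℝ)..b, r * Y r ^ 2 := by
      rw [← mul_assoc]
      exact mul_le_mul_of_nonneg_right hμ h3
    linarith
  · have h5 : μ * ∫ r in (0 : ℝ)..b, r ^ 2 * (r * Y r ^ 2) ≤ 0 :=
      mul_nonpos_of_nonpos_of_nonneg (not_le.1 hm).le h4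
    have h6 : 0 ≤ (n : ℝ) ^ 2 * ∫ r in (0 : ℝ)..b, r * Y r ^ 2 := mul_nonneg (sq_nonneg _) h3
    linarith

section modes

variable {v : ℂ → ℝ}

theorem cont_er : Continuous er := by unfold er; fun_prop

theorem cont_dr (hv : ContDiff ℝ (⊤ : ℕ∞) v) :
    Continuous fun p : ℝ × ℝ => fderiv ℝ v (X p.1 p.2) (er p.2) :=
  ((hv.continuous_fderiv (by simp)).comp X_cont).clm_apply (cont_er.comp continuous_snd)

theorem mc_deriv (hv : ContDiff ℝ (⊤ : ℕ∞) v) (n : ℕ) (r : ℝ) :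
    HasDerivAt (mc v n) (dc v n r) r :=
  Coer2.param_deriv (V := fun r θ => v (X r θ)) (D := fun r θ => fderiv ℝ v (X r θ) (er θ))
    (hv.continuous.comp X_cont) (cont_dr hv)
    (fun r θ => ((hv.differentiable (by simp) (X r θ)).hasFDerivAt).comp_hasDerivAt r (X_dr r θ))
    (φ := fun θ => cos (n * θ)) (by fun_prop) r

theorem ms_deriv (hv : ContDiff ℝ (⊤ : ℕ∞) v) (n : ℕ) (r : ℝ) :
    HasDerivAt (ms v n) (ds v n r) r :=
  Coer2.param_deriv (V := fun r θ => v (X r θ)) (D := fun r θ => fderiv ℝ v (X r θ) (er θ))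
    (hv.continuous.comp X_cont) (cont_dr hv)
    (fun r θ => ((hv.differentiable (by simp) (X r θ)).hasFDerivAt).comp_hasDerivAt r (X_dr r θ))
    (φ := fun θ => sin (n * θ)) (by fun_prop) r

theorem dc_cont (hv : ContDiff ℝ (⊤ : ℕ∞) v) (n : ℕ) : Continuous (dc v n) := by
  have h : Continuous (Function.uncurry fun r θ : ℝ =>
      fderiv ℝ v (X r θ) (er θ) * cos (n * θ)) := (cont_dr hv).mul (by fun_prop)
  exact Coer2.cont_int h _ _

theorem ds_cont (hv : ContDiff ℝ (⊤ : ℕ∞) v) (n : ℕ) : Continuous (ds v n) := by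
  have h : Continuous (Function.uncurry fun r θ : ℝ =>
      fderiv ℝ v (X r θ) (er θ) * sin (n * θ)) := (cont_dr hv).mul (by fun_prop)
  exact Coer2.cont_int h _ _

theorem mc_b {b : ℝ} (hb : 0 < b) (hsupp : ∀ x, b ≤ ‖x‖ → v x = 0) (n : ℕ) : mc v n b = 0 := by
  unfold mc
  have : ∀ θ, v (X b θ) = 0 := fun θ => hsupp _ (by rw [norm_X, abs_of_pos hb])
  simp [this]

theorem ms_b {b : ℝ} (hb : 0 < b) (hsupp : ∀ x, b ≤ ‖x‖ → v x = 0) (n : ℕ) : ms v n b = 0 := by
  unfold ms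
  have : ∀ θ, v (X b θ) = 0 := fun θ => hsupp _ (by rw [norm_X, abs_of_pos hb])
  simp [this]

theorem int_cos_nat {n : ℕ} (hn : n ≠ 0) : ∫ θ in (-π)..π, cos (n * θ) = 0 := by
  have h : (n : ℝ) ≠ 0 := by exact_mod_cast hn
  rw [intervalIntegral.integral_comp_mul_left (fun x => cos x) h, integral_cos]
  have : sin ((n : ℝ) * π) = 0 := sin_nat_mul_pi n
  rw [mul_neg, sin_neg, this]
  simp

theorem int_sin_nat (n : ℕ) : ∫ θ in (-π)..π, sin (n * θ) = 0 := by
  by_cases hn : n = 0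
  · rw [hn]; simp
  have h : (n : ℝ) ≠ 0 := by exact_mod_cast hn
  rw [intervalIntegral.integral_comp_mul_left (fun x => sin x) h, integral_sin, mul_neg, cos_neg]
  simp

theorem mc_zero {n : ℕ} (hn : n ≠ 0) : mc v n 0 = 0 := by
  unfold mc
  have : ∀ θ, X 0 θ = 0 := fun θ => by simp [X]
  simp only [this]
  rw [intervalIntegral.integral_const_mul, int_cos_nat hn, mul_zero]

theorem ms_zero (n : ℕ) : ms v n 0 = 0 := by
  unfold ms
  have : ∀ θ, X 0 θ = 0 := fun θ => by simp [X]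
  simp only [this]
  rw [intervalIntegral.integral_const_mul, int_sin_nat, mul_zero]

end modes

/-- finitely many modes -/
theorem fin_modes (hM : Mode) {a b lam : ℝ} (ha : 0 < a) (hab : a < b) (hlam : 0 < lam)
    (hB : ∀ n : ℕ, 2 ≤ n → ∀ s ∈ Icc (lam * a ^ 2 / 4) (lam * b ^ 2 / 4), B n s ≠ 0) (N : ℕ) :
    ∃ κ : ℝ, 0 < κ ∧ ∀ n : ℕ, 2 ≤ n → n < N → ∀ (y y' : ℝ → ℝ) (α : ℝ),
      (∀ r, HasDerivAt y (y' r) r) → Continuous y' →
      y b = 0 → (∀ r ∈ Icc 0 a, y r = α * r ^ n * B n (lam * r ^ 2 / 4)) →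
      ModeIneq (lam + κ) b n y y' := by
  induction N with
  | zero => exact ⟨1, one_pos, fun n _ h => absurd h (Nat.not_lt_zero n)⟩
  | succ N ih =>
    obtain ⟨κ, hκ, h⟩ := ih
    by_cases hN : 2 ≤ N
    · obtain ⟨κ', hκ', h'⟩ := hM N a b lam (by omega) ha hab hlam (hB N hN)
      refine ⟨min κ κ', lt_min hκ hκ', fun n h2 hn y y' α h3 h4 h5 h6 => ?_⟩
      rcases Nat.lt_succ_iff_lt_or_eq.1 hn with h7 | h7
      · exact mode_mono (ha.trans hab) (h n h2 h7 y y' α h3 h4 h5 h6)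
          (by linarith [min_le_left κ κ'])
      · subst h7
        exact mode_mono (ha.trans hab) (h' y y' α h3 h4 h5 h6) (by linarith [min_le_right κ κ'])
    · exact ⟨κ, hκ, fun n h2 hn => absurd hn (by omega)⟩

/-- the coercivity inequality -/
theorem coerA (hP : Pars) (hM : Mode) (hM0 : Mode0) (hM1 : Mode1) (hO : Odem) {a b lam : ℝ}
    (ha : 0 < a) (hab : a < b) (hlam : 0 < lam)
    (hB : ∀ n : ℕ, 2 ≤ n → ∀ s ∈ Icc (lam * a ^ 2 / 4) (lam * b ^ 2 / 4), B n s ≠ 0) :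
    ∃ μ : ℝ, lam < μ ∧ ∀ v : ℂ → ℝ, ContDiff ℝ (⊤ : ℕ∞) v → (∀ x, b ≤ ‖x‖ → v x = 0) →
      (∀ x : ℂ, ‖x‖ < a → dd 1 (dd 1 v) x + dd Complex.I (dd Complex.I v) x = -(lam * v x)) →
      ∫ x : ℂ, v x = 0 → ∫ x : ℂ, x.re * v x = 0 → ∫ x : ℂ, x.im * v x = 0 →
      μ * ∫ x, v x ^ 2 ≤ ∫ x, ((fderiv ℝ v x 1) ^ 2 + (fderiv ℝ v x Complex.I) ^ 2) := by
  have hb : 0 < b := ha.trans hab
  obtain ⟨κ0, hκ0, h0⟩ := hM0 a b lam ha hab hlam (hB 2 le_rfl)
  obtain ⟨κ1, hκ1, h1⟩ := hM1 a b lam ha hab hlam (hB 3 (by norm_num))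
  obtain ⟨N, hN⟩ := exists_nat_ge ((lam + 1) * b ^ 2 + 1)
  obtain ⟨κ2, hκ2, h2⟩ := fin_modes hM ha hab hlam hB N
  obtain ⟨κ, hκdef⟩ : ∃ κ, κ = min (min κ0 κ1) (min κ2 1) := ⟨_, rfl⟩
  have hκ : 0 < κ := by
    rw [hκdef]
    exact lt_min (lt_min hκ0 hκ1) (lt_min hκ2 one_pos)
  have k0 : κ ≤ κ0 := by rw [hκdef]; exact (min_le_left _ _).trans (min_le_left _ _)
  have k1 : κ ≤ κ1 := by rw [hκdef]; exact (min_le_left _ _).trans (min_le_right _ _)
  have k2 : κ ≤ κ2 := by rw [hκdef]; exact (min_le_right _ _).trans (min_le_left _ _)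
  have k3 : κ ≤ 1 := by rw [hκdef]; exact (min_le_right _ _).trans (min_le_right _ _)
  refine ⟨lam + κ, by linarith, fun v hv hsupp hH hm0 hm1 hm2 => ?_⟩
  have hO' := hO a lam v ha hlam hv hH
  have hvc : Continuous v := hv.continuous
  have hre : ∀ r θ, (X r θ).re = r * cos θ := by
    intro r θ
    simp [X, Complex.add_re, Complex.mul_re, Complex.cos_ofReal_re, Complex.sin_ofReal_re]
  have him : ∀ r θ, (X r θ).im = r * sin θ := by
    intro r θ
    simp [X, Complex.add_im, Complex.mul_im, Complex.cos_ofReal_re, Complex.sin_ofReal_re]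
  have t0 := Coer2.polar_int hb (f := v) hvc hsupp
  have t1 := Coer2.polar_int hb (f := fun x => x.re * v x) (Complex.continuous_re.mul hvc)
    (fun x hx => by simp only [hsupp x hx]; ring)
  have t2 := Coer2.polar_int hb (f := fun x => x.im * v x) (Complex.continuous_im.mul hvc)
    (fun x hx => by simp only [hsupp x hx]; ring)
  rw [hm0] at t0
  rw [hm1] at t1
  rw [hm2] at t2
  have g0 : ∫ r in (0 : ℝ)..b, r * mc v 0 r = 0 := by
    refine Eq.trans ?_ t0.symm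
    refine intervalIntegral.integral_congr fun r _ => ?_
    unfold mc
    simp only [Nat.cast_zero, zero_mul, cos_zero, mul_one]
    rw [intervalIntegral.integral_const_mul]
  have g1 : ∫ r in (0 : ℝ)..b, r ^ 2 * mc v 1 r = 0 := by
    refine Eq.trans ?_ t1.symm
    refine intervalIntegral.integral_congr fun r _ => ?_
    unfold mc
    simp only [Nat.cast_one, one_mul]
    rw [← intervalIntegral.integral_const_mul]
    refine intervalIntegral.integral_congr fun θ _ => ?_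
    simp only [hre]
    ring
  have g2 : ∫ r in (0 : ℝ)..b, r ^ 2 * ms v 1 r = 0 := by
    refine Eq.trans ?_ t2.symm
    refine intervalIntegral.integral_congr fun r _ => ?_
    unfold ms
    simp only [Nat.cast_one, one_mul]
    rw [← intervalIntegral.integral_const_mul]
    refine intervalIntegral.integral_congr fun θ _ => ?_
    simp only [him]
    ring
  have hlarge : ∀ n : ℕ, N ≤ n → (lam + κ) * b ^ 2 ≤ (n : ℝ) ^ 2 := by
    intro n hn
    have h3 : (N : ℝ) ≤ n := by exact_mod_cast hn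
    have h4 : (lam + κ) * b ^ 2 ≤ (lam + 1) * b ^ 2 :=
      mul_le_mul_of_nonneg_right (by linarith) (sq_nonneg b)
    have h5 : 0 ≤ (lam + 1) * b ^ 2 := by positivity
    nlinarith
  refine hP b (lam + κ) v hb hv hsupp (fun n => ?_) (fun n => ?_)
  · obtain ⟨α, hα⟩ := (hO' n).1
    by_cases hn0 : n = 0
    · subst hn0
      refine mode_mono hb (h0 (mc v 0) (dc v 0) α (mc_deriv hv 0) (dc_cont hv 0)
        (mc_b hb hsupp 0) (fun r hr => ?_) g0) (by linarith)
      rw [hα r hr, pow_zero, mul_one]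
    by_cases hn1 : n = 1
    · subst hn1
      refine mode_mono hb (h1 (mc v 1) (dc v 1) α (mc_deriv hv 1) (dc_cont hv 1)
        (mc_b hb hsupp 1) (fun r hr => ?_) g1) (by linarith)
      rw [hα r hr, pow_one]
    by_cases hnN : n < N
    · exact mode_mono hb (h2 n (by omega) hnN (mc v n) (dc v n) α (mc_deriv hv n) (dc_cont hv n)
        (mc_b hb hsupp n) hα) (by linarith)
    · exact mode_large hb (hlarge n (not_lt.1 hnN)) (mc_deriv hv n) (dc_cont hv n) (mc_zero hn0)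
  · obtain ⟨α, hα⟩ := (hO' n).2
    by_cases hn0 : n = 0
    · subst hn0
      have e1 : ∀ r, ms v 0 r = 0 := fun r => by unfold ms; simp
      have e2 : ∀ r, ds v 0 r = 0 := fun r => by unfold ds; simp
      unfold ModeIneq
      simp [e1, e2]
    by_cases hn1 : n = 1
    · subst hn1
      refine mode_mono hb (h1 (ms v 1) (ds v 1) α (ms_deriv hv 1) (ds_cont hv 1)
        (ms_b hb hsupp 1) (fun r hr => ?_) g2) (by linarith)
      rw [hα r hr, pow_one]
    by_cases hnN : n < N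
    · exact mode_mono hb (h2 n (by omega) hnN (ms v n) (ds v n) α (ms_deriv hv n) (ds_cont hv n)
        (ms_b hb hsupp n) hα) (by linarith)
    · exact mode_large hb (hlarge n (not_lt.1 hnN)) (ms_deriv hv n) (ds_cont hv n) (ms_zero n)

end Pool.Agent.TH298.AN
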