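import Mathlib
import Pool.Agent.TH298.AN.Coer

/-!
Mode splitting of the Dirichlet integral.
-/

set_option autoImplicit false

namespace Pool.Agent.TH298.AN

open MeasureTheory Set Real Pool.Agent.TH298.Sch
open scoped ContDiff

/-- Parseval's identity for a real function on `[-π, π]` -/
theorem parsR {f : ℝ → ℝ} (hf : Continuous f) :
    HasSum (fun n : ℤ => ((∫ θ in (-π)..π, f θ * cos (n.natAbs * θ)) ^ 2 +
      (∫ θ in (-π)..π, f θ * sin (n.natAbs * θ)) ^ 2) / (4 * π ^ 2))
      ((∫ θ in (-π)..π, f θ ^ 2) / (2 * π)) := by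
  have hpi := Real.pi_pos
  have hab : (-π : ℝ) < π := by linarith
  have hF : Continuous fun x => (f x : ℂ) := by fun_prop
  have hmem : MemLp (fun x => (f x : ℂ)) 2 (volume.restrict (Ioc (-π) π)) := by
    obtain ⟨C, hC⟩ := (isCompact_Icc (a := (-π : ℝ)) (b := π)).exists_bound_of_continuousOn
      hF.continuousOn
    refine MemLp.of_bound hF.aestronglyMeasurable C ?_
    refine (ae_restrict_iff' measurableSet_Ioc).2 (Filter.Eventually.of_forall fun r hr => ?_)
    exact hC r (Ioc_subset_Icc_self hr)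
  have s1 := hasSum_sq_fourierCoeffOn hab hmem
  have hz : ∀ n : ℤ, ‖fourierCoeffOn hab (fun x => (f x : ℂ)) n‖ ^ 2 =
      ((∫ θ in (-π)..π, f θ * cos (n.natAbs * θ)) ^ 2 +
      (∫ θ in (-π)..π, f θ * sin (n.natAbs * θ)) ^ 2) / (4 * π ^ 2) := by
    intro n
    rw [fourierCoeffOn_eq_integral]
    have e1 : ∀ x : ℝ, fourier (-n) (x : AddCircle (π - (-π))) • (f x : ℂ) =
        ((f x * cos (n * x) : ℝ) : ℂ) - ((f x * sin (n * x) : ℝ) : ℂ) * Complex.I := by
      intro x
      rw [fourier_coe_apply]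
      have e2 : 2 * (π : ℂ) * Complex.I * ((-n : ℤ) : ℂ) * x / ((π - (-π) : ℝ) : ℂ) =
          ((-(n * x) : ℝ) : ℂ) * Complex.I := by
        have : (π : ℂ) ≠ 0 := by exact_mod_cast hpi.ne'
        push_cast
        field_simp
        ring
      rw [e2, Complex.exp_mul_I, ← Complex.ofReal_cos, ← Complex.ofReal_sin, cos_neg, sin_neg,
        smul_eq_mul]
      push_cast
      ring
    have c1 : Continuous fun x => ((f x * cos (n * x) : ℝ) : ℂ) := by fun_prop
    have c2 : Continuous fun x => ((f x * sin (n * x) : ℝ) : ℂ) * Complex.I := by fun_prop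
    simp only [e1]
    rw [intervalIntegral.integral_sub (c1.intervalIntegrable _ _) (c2.intervalIntegrable _ _),
      intervalIntegral.integral_mul_const, intervalIntegral.integral_ofReal,
      intervalIntegral.integral_ofReal]
    have hcos : ∫ x in (-π)..π, f x * cos (n * x) = ∫ x in (-π)..π, f x * cos (n.natAbs * x) := by
      rcases Int.natAbs_eq n with h | h
      · have h2 : (n : ℝ) = (n.natAbs : ℝ) := by
          have := congrArg (fun k : ℤ => (k : ℝ)) h
          simpa using this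
        rw [h2]
      · have h2 : (n : ℝ) = -(n.natAbs : ℝ) := by
          have := congrArg (fun k : ℤ => (k : ℝ)) h
          simpa using this
        rw [h2]
        refine intervalIntegral.integral_congr fun x _ => ?_
        simp only [neg_mul, cos_neg]
    have hsin : (∫ x in (-π)..π, f x * sin (n * x)) ^ 2 =
        (∫ x in (-π)..π, f x * sin (n.natAbs * x)) ^ 2 := by
      rcases Int.natAbs_eq n with h | h
      · have h2 : (n : ℝ) = (n.natAbs : ℝ) := by
          have := congrArg (fun k : ℤ => (k : ℝ)) h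
          simpa using this
        rw [h2]
      · have h2 : (n : ℝ) = -(n.natAbs : ℝ) := by
          have := congrArg (fun k : ℤ => (k : ℝ)) h
          simpa using this
        have h3 : ∫ x in (-π)..π, f x * sin (n * x) = -∫ x in (-π)..π, f x * sin (n.natAbs * x) := by
          rw [← intervalIntegral.integral_neg]
          refine intervalIntegral.integral_congr fun x _ => ?_
          simp only [h2, neg_mul, sin_neg]
          ring
        rw [h3, neg_sq]
    rw [hcos, ← hsin, norm_smul, mul_pow]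
    have h5 : ∀ p q : ℝ, ‖(p : ℂ) - (q : ℂ) * Complex.I‖ ^ 2 = p ^ 2 + q ^ 2 := by
      intro p q
      rw [← Complex.normSq_eq_norm_sq, Complex.normSq_apply]
      simp
      ring
    rw [h5]
    rw [Real.norm_eq_abs, abs_of_pos (by
      have : 0 < π - -π := by linarith
      positivity)]
    have : π - -π = 2 * π := by ring
    rw [this]
    field_simp
    ring
  simp only [hz] at s1
  have h6 : (π - -π)⁻¹ • ∫ x in (-π)..π, ‖(f x : ℂ)‖ ^ 2 = (∫ θ in (-π)..π, f θ ^ 2) / (2 * π) := by
    have h7 : ∀ x : ℝ, ‖(f x : ℂ)‖ ^ 2 = f x ^ 2 := by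
      intro x
      rw [Complex.norm_real, Real.norm_eq_abs, sq_abs]
    simp only [h7]
    have : π - -π = 2 * π := by ring
    rw [this, smul_eq_mul]
    field_simp
  rw [h6] at s1
  exact s1

variable {v : ℂ → ℝ}

theorem cont_et : Continuous et := by unfold et; fun_prop

theorem cont_dt (hv : ContDiff ℝ (⊤ : ℕ∞) v) :
    Continuous fun p : ℝ × ℝ => fderiv ℝ v (X p.1 p.2) (et p.2) :=
  ((hv.continuous_fderiv (by simp)).comp X_cont).clm_apply (cont_et.comp continuous_snd)

/-- cosine modes of the tangential derivative -/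
noncomputable def tc (v : ℂ → ℝ) (n : ℕ) (r : ℝ) : ℝ :=
  ∫ θ in (-π)..π, fderiv ℝ v (X r θ) (et θ) * cos (n * θ)

/-- sine modes of the tangential derivative -/
noncomputable def ts (v : ℂ → ℝ) (n : ℕ) (r : ℝ) : ℝ :=
  ∫ θ in (-π)..π, fderiv ℝ v (X r θ) (et θ) * sin (n * θ)

theorem tc_cont (hv : ContDiff ℝ (⊤ : ℕ∞) v) (n : ℕ) : Continuous (tc v n) := by
  have h : Continuous (Function.uncurry fun r θ : ℝ =>
      fderiv ℝ v (X r θ) (et θ) * cos (n * θ)) := (cont_dt hv).mul (by fun_prop)
  exact Coer2.cont_int h _ _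

theorem ts_cont (hv : ContDiff ℝ (⊤ : ℕ∞) v) (n : ℕ) : Continuous (ts v n) := by
  have h : Continuous (Function.uncurry fun r θ : ℝ =>
      fderiv ℝ v (X r θ) (et θ) * sin (n * θ)) := (cont_dt hv).mul (by fun_prop)
  exact Coer2.cont_int h _ _

theorem mc_cont (hv : ContDiff ℝ (⊤ : ℕ∞) v) (n : ℕ) : Continuous (mc v n) :=
  continuous_iff_continuousAt.2 fun x => (mc_deriv hv n x).continuousAt

theorem ms_cont (hv : ContDiff ℝ (⊤ : ℕ∞) v) (n : ℕ) : Continuous (ms v n) :=
  continuous_iff_continuousAt.2 fun x => (ms_deriv hv n x).continuousAt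

/-- integration by parts on a circle -/
theorem byparts (hv : ContDiff ℝ (⊤ : ℕ∞) v) (n : ℕ) (r : ℝ) :
    r * tc v n r = n * ms v n r ∧ r * ts v n r = -(n * mc v n r) := by
  have hd : ∀ x, HasFDerivAt v (fderiv ℝ v x) x := fun x =>
    (hv.differentiable (by simp) x).hasFDerivAt
  have hdt : ∀ θ : ℝ, HasDerivAt (fun θ : ℝ => v (X r θ))
      (r * fderiv ℝ v (X r θ) (et θ)) θ := by
    intro θ
    have h1 := (hd (X r θ)).comp_hasDerivAt θ (X_dt r θ)
    refine h1.congr_deriv ?_
    rw [show (r : ℂ) * et θ = r • et θ from (Complex.real_smul).symm, map_smul, smul_eq_mul]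
  have sV : Continuous fun θ : ℝ => v (X r θ) :=
    (hv.continuous.comp X_cont).comp (continuous_const.prodMk continuous_id)
  have sT : Continuous fun θ : ℝ => fderiv ℝ v (X r θ) (et θ) :=
    (cont_dt hv).comp (continuous_const.prodMk continuous_id)
  have hX : X r π = X r (-π) := by simp [X]
  have hnt : ∀ θ : ℝ, HasDerivAt (fun θ : ℝ => (n : ℝ) * θ) n θ := fun θ => by
    simpa using (hasDerivAt_id θ).const_mul (n : ℝ)
  have hs1 : sin ((n : ℝ) * π) = 0 := sin_nat_mul_pi n
  constructor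
  · have k : ∀ θ ∈ uIcc (-π) π, HasDerivAt (fun θ : ℝ => v (X r θ) * cos (n * θ))
        (r * (fderiv ℝ v (X r θ) (et θ) * cos (n * θ)) - n * (v (X r θ) * sin (n * θ))) θ := by
      intro θ _
      refine ((hdt θ).mul (hnt θ).cos).congr_deriv ?_
      ring
    have c1 : Continuous fun θ : ℝ => r * (fderiv ℝ v (X r θ) (et θ) * cos (n * θ)) := by fun_prop
    have c2 : Continuous fun θ : ℝ => (n : ℝ) * (v (X r θ) * sin (n * θ)) :=
      continuous_const.mul (sV.mul (by fun_prop))
    have h := intervalIntegral.integral_eq_sub_of_hasDerivAt k ((c1.sub c2).intervalIntegrable _ _)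
    rw [intervalIntegral.integral_sub (c1.intervalIntegrable _ _) (c2.intervalIntegrable _ _),
      intervalIntegral.integral_const_mul, intervalIntegral.integral_const_mul, hX, mul_neg,
      cos_neg, sub_self] at h
    unfold tc ms
    linarith
  · have k : ∀ θ ∈ uIcc (-π) π, HasDerivAt (fun θ : ℝ => v (X r θ) * sin (n * θ))
        (r * (fderiv ℝ v (X r θ) (et θ) * sin (n * θ)) + n * (v (X r θ) * cos (n * θ))) θ := by
      intro θ _
      refine ((hdt θ).mul (hnt θ).sin).congr_deriv ?_
      ring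
    have c1 : Continuous fun θ : ℝ => r * (fderiv ℝ v (X r θ) (et θ) * sin (n * θ)) := by fun_prop
    have c2 : Continuous fun θ : ℝ => (n : ℝ) * (v (X r θ) * cos (n * θ)) :=
      continuous_const.mul (sV.mul (by fun_prop))
    have h := intervalIntegral.integral_eq_sub_of_hasDerivAt k ((c1.add c2).intervalIntegrable _ _)
    rw [intervalIntegral.integral_add (c1.intervalIntegrable _ _) (c2.intervalIntegrable _ _),
      intervalIntegral.integral_const_mul, intervalIntegral.integral_const_mul, mul_neg,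
      sin_neg, hs1] at h
    unfold ts mc
    linarith

/-- one mode -/
theorem one_mode (hv : ContDiff ℝ (⊤ : ℕ∞) v) {b μ : ℝ} (n : ℕ)
    (h1 : ModeIneq μ b n (mc v n) (dc v n)) (h2 : ModeIneq μ b n (ms v n) (ds v n)) :
    μ * ∫ r in (0 : ℝ)..b, r * ((mc v n r ^ 2 + ms v n r ^ 2) / (4 * π ^ 2)) ≤
      ∫ r in (0 : ℝ)..b, r * ((dc v n r ^ 2 + ds v n r ^ 2) / (4 * π ^ 2) +
        (tc v n r ^ 2 + ts v n r ^ 2) / (4 * π ^ 2)) := by
  have hpi := Real.pi_pos
  have cmc := mc_cont hv n
  have cms := ms_cont hv n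
  have cdc := dc_cont hv n
  have cds := ds_cont hv n
  have ctc := tc_cont hv n
  have cts := ts_cont hv n
  have e1 : (n : ℝ) ^ 2 * ∫ r in (0 : ℝ)..b, mc v n r ^ 2 / r =
      ∫ r in (0 : ℝ)..b, r * ts v n r ^ 2 := by
    rw [← intervalIntegral.integral_const_mul]
    refine intervalIntegral.integral_congr fun r _ => ?_
    have hb := (byparts hv n r).2
    by_cases hr : r = 0
    · rw [hr]; simp
    · have : r * ts v n r ^ 2 = (r * ts v n r) ^ 2 / r := by field_simp
      rw [this, hb]
      ring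
  have e2 : (n : ℝ) ^ 2 * ∫ r in (0 : ℝ)..b, ms v n r ^ 2 / r =
      ∫ r in (0 : ℝ)..b, r * tc v n r ^ 2 := by
    rw [← intervalIntegral.integral_const_mul]
    refine intervalIntegral.integral_congr fun r _ => ?_
    have hb := (byparts hv n r).1
    by_cases hr : r = 0
    · rw [hr]; simp
    · have : r * tc v n r ^ 2 = (r * tc v n r) ^ 2 / r := by field_simp
      rw [this, hb]
      ring
  unfold ModeIneq at h1 h2
  rw [e1] at h1
  rw [e2] at h2
  have i : ∀ {f : ℝ → ℝ}, Continuous f → IntervalIntegrable f volume 0 b :=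
    fun hf => hf.intervalIntegrable _ _
  have f1 : ∫ r in (0 : ℝ)..b, r * ((mc v n r ^ 2 + ms v n r ^ 2) / (4 * π ^ 2)) =
      ((∫ r in (0 : ℝ)..b, r * mc v n r ^ 2) + ∫ r in (0 : ℝ)..b, r * ms v n r ^ 2) /
        (4 * π ^ 2) := by
    rw [← intervalIntegral.integral_add (i (by fun_prop)) (i (by fun_prop)),
      ← intervalIntegral.integral_div]
    refine intervalIntegral.integral_congr fun r _ => ?_
    ring
  have f2 : ∫ r in (0 : ℝ)..b, r * ((dc v n r ^ 2 + ds v n r ^ 2) / (4 * π ^ 2) +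
        (tc v n r ^ 2 + ts v n r ^ 2) / (4 * π ^ 2)) =
      (((∫ r in (0 : ℝ)..b, r * dc v n r ^ 2) + ∫ r in (0 : ℝ)..b, r * ds v n r ^ 2) +
        ((∫ r in (0 : ℝ)..b, r * tc v n r ^ 2) + ∫ r in (0 : ℝ)..b, r * ts v n r ^ 2)) /
        (4 * π ^ 2) := by
    rw [← intervalIntegral.integral_add (i (by fun_prop)) (i (by fun_prop)),
      ← intervalIntegral.integral_add (i (by fun_prop)) (i (by fun_prop)),
      ← intervalIntegral.integral_add (i (by fun_prop)) (i (by fun_prop)),
      ← intervalIntegral.integral_div]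
    refine intervalIntegral.integral_congr fun r _ => ?_
    ring
  rw [f1, f2, ← mul_div_assoc]
  refine div_le_div_of_nonneg_right ?_ (by positivity)
  linarith

/-- summation of an integral of nonnegative functions -/
theorem sum_int {b : ℝ} (hb : 0 < b) {F : ℤ → ℝ → ℝ} {f : ℝ → ℝ} (cF : ∀ n, Continuous (F n))
    (cf : Continuous f) (h0 : ∀ n r, 0 ≤ F n r) (hs : ∀ r, HasSum (fun n => F n r) (f r)) :
    HasSum (fun n => ∫ r in (0 : ℝ)..b, r * F n r) (∫ r in (0 : ℝ)..b, r * f r) := by
  have ht : ∀ r : ℝ, HasSum (fun n => r * F n r) (r * f r) := fun r => (hs r).mul_left r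
  refine intervalIntegral.hasSum_integral_of_dominated_convergence (fun n r => r * F n r)
    (fun n => (continuous_id.mul (cF n)).aestronglyMeasurable)
    (fun n => Filter.Eventually.of_forall fun r hr => ?_)
    (Filter.Eventually.of_forall fun r _ => (ht r).summable) ?_
    (Filter.Eventually.of_forall fun r _ => ht r)
  · rw [uIoc_of_le hb.le] at hr
    rw [Real.norm_of_nonneg (mul_nonneg hr.1.le (h0 n r))]
  · have : (fun r => ∑' n, r * F n r) = fun r => r * f r := by
      funext r
      exact (ht r).tsum_eq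
    rw [this]
    exact (continuous_id.mul cf).intervalIntegrable _ _

theorem pars2 : Pars := by
  intro b μ v hb hv hsupp hc hs
  have hpi := Real.pi_pos
  have hvc : Continuous v := hv.continuous
  have hdc : Continuous (fderiv ℝ v) := hv.continuous_fderiv (by simp)
  have sV : ∀ r : ℝ, Continuous fun θ : ℝ => v (X r θ) := fun r =>
    (hvc.comp X_cont).comp (continuous_const.prodMk continuous_id)
  have sD : ∀ r : ℝ, Continuous fun θ : ℝ => fderiv ℝ v (X r θ) (er θ) := fun r =>
    (cont_dr hv).comp (continuous_const.prodMk continuous_id)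
  have sT : ∀ r : ℝ, Continuous fun θ : ℝ => fderiv ℝ v (X r θ) (et θ) := fun r =>
    (cont_dt hv).comp (continuous_const.prodMk continuous_id)
  have hvX : Continuous fun p : ℝ × ℝ => v (X p.1 p.2) := hvc.comp X_cont
  have cdr := cont_dr hv
  have cdt := cont_dt hv
  have cV2 : Continuous fun r : ℝ => (∫ θ in (-π)..π, v (X r θ) ^ 2) / (2 * π) :=
    (Coer2.cont_int (F := fun r θ => v (X r θ) ^ 2) (by
      show Continuous fun p : ℝ × ℝ => v (X p.1 p.2) ^ 2
      exact hvX.pow 2) _ _).div_const _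
  have cD2 : Continuous fun r : ℝ => (∫ θ in (-π)..π, fderiv ℝ v (X r θ) (er θ) ^ 2) / (2 * π) :=
    (Coer2.cont_int (F := fun r θ => fderiv ℝ v (X r θ) (er θ) ^ 2) (by
      show Continuous fun p : ℝ × ℝ => fderiv ℝ v (X p.1 p.2) (er p.2) ^ 2
      exact cdr.pow 2) _ _).div_const _
  have cT2 : Continuous fun r : ℝ => (∫ θ in (-π)..π, fderiv ℝ v (X r θ) (et θ) ^ 2) / (2 * π) :=
    (Coer2.cont_int (F := fun r θ => fderiv ℝ v (X r θ) (et θ) ^ 2) (by
      show Continuous fun p : ℝ × ℝ => fderiv ℝ v (X p.1 p.2) (et p.2) ^ 2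
      exact cdt.pow 2) _ _).div_const _
  have S1 := sum_int hb (F := fun n r => (mc v n.natAbs r ^ 2 + ms v n.natAbs r ^ 2) / (4 * π ^ 2))
    (f := fun r => (∫ θ in (-π)..π, v (X r θ) ^ 2) / (2 * π))
    (fun n => by
      have := mc_cont hv n.natAbs
      have := ms_cont hv n.natAbs
      fun_prop) cV2 (fun n r => by positivity) (fun r => parsR (sV r))
  have S2 := sum_int hb (F := fun n r => (dc v n.natAbs r ^ 2 + ds v n.natAbs r ^ 2) / (4 * π ^ 2) +
      (tc v n.natAbs r ^ 2 + ts v n.natAbs r ^ 2) / (4 * π ^ 2))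
    (f := fun r => (∫ θ in (-π)..π, fderiv ℝ v (X r θ) (er θ) ^ 2) / (2 * π) +
      (∫ θ in (-π)..π, fderiv ℝ v (X r θ) (et θ) ^ 2) / (2 * π))
    (fun n => by
      have := dc_cont hv n.natAbs
      have := ds_cont hv n.natAbs
      have := tc_cont hv n.natAbs
      have := ts_cont hv n.natAbs
      fun_prop) (cD2.add cT2) (fun n r => by positivity)
      (fun r => (parsR (sD r)).add (parsR (sT r)))
  have key := hasSum_le (fun n : ℤ => one_mode hv (b := b) (μ := μ) n.natAbs (hc _) (hs _))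
    (S1.mul_left μ) S2
  -- support of the derivative
  have hsupp' : ∀ x, b ≤ ‖x‖ → fderiv ℝ v x = 0 := by
    have h1 : ∀ x ∈ (Metric.closedBall (0 : ℂ) b)ᶜ, fderiv ℝ v x = 0 := by
      intro x hx
      have h2 : v =ᶠ[nhds x] fun _ => 0 := by
        filter_upwards [Metric.isClosed_closedBall.isOpen_compl.mem_nhds hx] with y hy
        rw [mem_compl_iff, mem_closedBall_zero_iff, not_le] at hy
        exact hsupp y hy.le
      rw [h2.fderiv_eq]
      simp
    have hcl : IsClosed {x : ℂ | fderiv ℝ v x = 0} := isClosed_eq hdc continuous_const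
    intro x hx
    have h3 : x ∈ closure ((Metric.closedBall (0 : ℂ) b)ᶜ) := by
      rw [closure_compl, interior_closedBall _ hb.ne', mem_compl_iff, mem_ball_zero_iff, not_lt]
      exact hx
    exact closure_minimal h1 hcl h3
  have t1 := Coer2.polar_int hb (f := fun x => v x ^ 2) (hvc.pow 2) (fun x hx => by
    simp only [hsupp x hx]; ring)
  have t2 := Coer2.polar_int hb
    (f := fun x => (fderiv ℝ v x 1) ^ 2 + (fderiv ℝ v x Complex.I) ^ 2) (by fun_prop)
    (fun x hx => by simp only [hsupp' x hx]; simp)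
  have u1 : ∫ x : ℂ, v x ^ 2 = 2 * π * ∫ r in (0 : ℝ)..b, r * ((∫ θ in (-π)..π, v (X r θ) ^ 2) /
      (2 * π)) := by
    rw [t1, ← intervalIntegral.integral_const_mul]
    refine intervalIntegral.integral_congr fun r _ => ?_
    rw [intervalIntegral.integral_const_mul]
    field_simp
  have u2 : ∫ x : ℂ, ((fderiv ℝ v x 1) ^ 2 + (fderiv ℝ v x Complex.I) ^ 2) =
      2 * π * ∫ r in (0 : ℝ)..b, r * ((∫ θ in (-π)..π, fderiv ℝ v (X r θ) (er θ) ^ 2) / (2 * π) +
      (∫ θ in (-π)..π, fderiv ℝ v (X r θ) (et θ) ^ 2) / (2 * π)) := by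
    rw [t2, ← intervalIntegral.integral_const_mul]
    refine intervalIntegral.integral_congr fun r _ => ?_
    have k1 : ∀ θ : ℝ, (fderiv ℝ v (X r θ) 1) ^ 2 + (fderiv ℝ v (X r θ) Complex.I) ^ 2 =
        fderiv ℝ v (X r θ) (er θ) ^ 2 + fderiv ℝ v (X r θ) (et θ) ^ 2 := by
      intro θ
      exact (lin_sq (fderiv ℝ v (X r θ)) θ).symm
    have k2 : IntervalIntegrable (fun θ : ℝ => fderiv ℝ v (X r θ) (er θ) ^ 2) volume (-π) π :=
      ((sD r).pow 2).intervalIntegrable _ _
    have k3 : IntervalIntegrable (fun θ : ℝ => fderiv ℝ v (X r θ) (et θ) ^ 2) volume (-π) π :=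
      ((sT r).pow 2).intervalIntegrable _ _
    simp only [k1]
    rw [intervalIntegral.integral_const_mul, intervalIntegral.integral_add k2 k3]
    field_simp
  rw [u1, u2]
  have := mul_le_mul_of_nonneg_left key (by positivity : (0 : ℝ) ≤ 2 * π)
  linarith

end Pool.Agent.TH298.AN
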