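import Mathlib
import Pool.Agent.TH298.GB.Fin
import Pool.Agent.TH259.NS.Bes

/-!
On a disc of radius `r` Schiffer's problem is solvable only if `J_1 (√lam r) = 0`.
-/

set_option autoImplicit false

namespace Pool.Agent.TH298.AN

open MeasureTheory Set Real Filter Topology Metric TH259.NS
open Pool.Agent.TH298.Sch (Sol Sol.fin)
open scoped ContDiff

variable {lam c : ℝ} {u : ℂ → ℝ} {G : ℂ → ℂ}

theorem B_c1 (m : ℕ) : ContDiff ℝ 1 (B m) := by
  rw [contDiff_one_iff_deriv]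
  refine ⟨fun s => (B_deriv m s).differentiableAt, ?_⟩
  have : deriv (B m) = fun s => -B (m + 1) s := funext fun s => (B_deriv m s).deriv
  rw [this]
  exact (B_cont (m + 1)).neg

theorem rad_fd (m : ℕ) (lam : ℝ) (x : ℂ) :
    HasFDerivAt (fun y : ℂ => B m (lam * ‖y‖ ^ 2 / 4))
      ((-B (m + 1) (lam * ‖x‖ ^ 2 / 4)) • ((lam / 4) • (2 • innerSL ℝ x))) x := by
  have h1 : HasFDerivAt (fun y : ℂ => ‖y‖ ^ 2) (2 • innerSL ℝ x) x := by
    have := (hasFDerivAt_id x).norm_sq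
    simpa using this
  have h2 : HasFDerivAt (fun y : ℂ => lam * ‖y‖ ^ 2 / 4) ((lam / 4) • (2 • innerSL ℝ x)) x := by
    have h3 : (fun y : ℂ => lam * ‖y‖ ^ 2 / 4) = fun y => (lam / 4) * ‖y‖ ^ 2 := by
      funext y; ring
    rw [h3]
    exact h1.const_mul (lam / 4)
  exact (B_deriv m _).comp_hasFDerivAt x h2

theorem rad_c1 (m : ℕ) (lam : ℝ) : ContDiff ℝ 1 (fun y : ℂ => B m (lam * ‖y‖ ^ 2 / 4)) :=
  (B_c1 m).comp ((contDiff_const.mul (contDiff_norm_sq ℝ)).div_const 4)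

theorem int_mul {Ω : Set ℂ} (hb : Bornology.IsBounded Ω) (hm : MeasurableSet Ω) {f g : ℂ → ℝ}
    (hf : IntegrableOn f Ω) (hg : Continuous g) : IntegrableOn (fun x => f x * g x) Ω := by
  obtain ⟨R, hR⟩ := hb.exists_norm_le
  obtain ⟨C, hC⟩ := (isCompact_closedBall (0 : ℂ) R).exists_bound_of_continuousOn hg.continuousOn
  refine Integrable.mul_bdd (c := C) hf hg.aestronglyMeasurable ?_
  filter_upwards [ae_restrict_mem hm] with x hx
  exact hC x (by rw [mem_closedBall_zero_iff]; exact hR x hx)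

/-- the integral of the radial Bessel function over the domain vanishes -/
theorem int_J0 {Ω : Set ℂ} (hb : Bornology.IsBounded Ω) (hm : MeasurableSet Ω)
    (h : Sol Ω lam c u G) (hlam : 0 < lam) (hc : c ≠ 0) :
    ∫ x in Ω, B 0 (lam * ‖x‖ ^ 2 / 4) = 0 := by
  have hfin := Sol.fin hb
  have hui := h.ui hb
  have huc : IntegrableOn (fun x => u x - c) Ω := hui.sub (integrable_const c)
  -- the test functions
  have hψ : ∀ v : ℂ, ContDiff ℝ 1 (fun y : ℂ => B 1 (lam * ‖y‖ ^ 2 / 4) * inner ℝ v y) := fun v =>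
    (rad_c1 1 lam).mul (contDiff_const.inner ℝ contDiff_id)
  have hψd : ∀ v x : ℂ, fderiv ℝ (fun y : ℂ => B 1 (lam * ‖y‖ ^ 2 / 4) * inner ℝ v y) x v =
      -(lam / 2) * B 2 (lam * ‖x‖ ^ 2 / 4) * inner ℝ v x ^ 2 +
        B 1 (lam * ‖x‖ ^ 2 / 4) * ‖v‖ ^ 2 := by
    intro v x
    have h1 : HasFDerivAt (fun y : ℂ => (inner ℝ v y : ℝ)) (innerSL ℝ v) x :=
      (innerSL ℝ v).hasFDerivAt
    have h2 := ((rad_fd 1 lam x).mul h1).fderiv
    rw [show (fun y : ℂ => B 1 (lam * ‖y‖ ^ 2 / 4) * inner ℝ v y) =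
      (fun y : ℂ => B 1 (lam * ‖y‖ ^ 2 / 4)) * (fun y => (inner ℝ v y : ℝ)) from rfl, h2]
    simp only [add_apply, smul_apply, smul_eq_mul, innerSL_apply_apply,
      real_inner_self_eq_norm_sq, real_inner_comm v x]
    rw [real_inner_comm x v]
    simp only [nsmul_eq_mul, Nat.cast_ofNat]
    ring
  have hΦd : ∀ x v : ℂ, fderiv ℝ (fun y : ℂ => B 0 (lam * ‖y‖ ^ 2 / 4)) x v =
      -(lam / 2) * (B 1 (lam * ‖x‖ ^ 2 / 4) * inner ℝ x v) := by
    intro x v
    rw [(rad_fd 0 lam x).fderiv]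
    simp only [smul_apply, smul_eq_mul, innerSL_apply_apply, nsmul_eq_mul, Nat.cast_ofNat]
    ring
  have w0 := (Pool.Agent.W632.Schiffer.weak_all hb hm h.h1 h.h2 _ (rad_c1 0 lam)).2
  have w1 := (Pool.Agent.W632.Schiffer.weak_all hb hm h.h1 h.h2 _ (hψ 1)).1 1
  have w2 := (Pool.Agent.W632.Schiffer.weak_all hb hm h.h1 h.h2 _ (hψ Complex.I)).1 Complex.I
  simp only [hψd] at w1 w2
  simp only [hΦd] at w0
  have i1 : ∀ x : ℂ, (inner ℝ (1 : ℂ) x : ℝ) = x.re := fun x => by simp [Complex.inner]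
  have i2 : ∀ x : ℂ, (inner ℝ Complex.I x : ℝ) = x.im := fun x => by simp [Complex.inner]
  have i3 : ∀ x : ℂ, (inner ℝ x (1 : ℂ) : ℝ) = x.re := fun x => by simp [Complex.inner]
  have i4 : ∀ x : ℂ, (inner ℝ x Complex.I : ℝ) = x.im := fun x => by simp [Complex.inner]
  have i5 : ∀ x y : ℂ, (inner ℝ x y : ℝ) = x.re * y.re + x.im * y.im := fun x y => by
    simp [Complex.inner]
    ring
  simp only [i1, i2, i3, i4, norm_one, Complex.norm_I, one_pow, mul_one] at w1 w2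
  simp only [i5] at w0
  have cB : ∀ m : ℕ, Continuous fun x : ℂ => B m (lam * ‖x‖ ^ 2 / 4) := fun m =>
    (rad_c1 m lam).continuous
  have hGr : IntegrableOn (fun x => (G x).re) Ω := (h.Gi hb).re
  have hGim : IntegrableOn (fun x => (G x).im) Ω := (h.Gi hb).im
  have j1 : IntegrableOn (fun x => (u x - c) * (-(lam / 2) * B 2 (lam * ‖x‖ ^ 2 / 4) * x.re ^ 2 +
      B 1 (lam * ‖x‖ ^ 2 / 4))) Ω :=
    int_mul hb hm huc (((continuous_const.mul (cB 2)).mul (Complex.continuous_re.pow 2)).add (cB 1))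
  have j2 : IntegrableOn (fun x => (u x - c) * (-(lam / 2) * B 2 (lam * ‖x‖ ^ 2 / 4) * x.im ^ 2 +
      B 1 (lam * ‖x‖ ^ 2 / 4))) Ω :=
    int_mul hb hm huc (((continuous_const.mul (cB 2)).mul (Complex.continuous_im.pow 2)).add (cB 1))
  have j3 : IntegrableOn (fun x => (G x).re * (B 1 (lam * ‖x‖ ^ 2 / 4) * x.re)) Ω :=
    int_mul hb hm hGr ((cB 1).mul Complex.continuous_re)
  have j4 : IntegrableOn (fun x => (G x).im * (B 1 (lam * ‖x‖ ^ 2 / 4) * x.im)) Ω :=
    int_mul hb hm hGim ((cB 1).mul Complex.continuous_im)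
  have j5 : IntegrableOn (fun x => u x * B 0 (lam * ‖x‖ ^ 2 / 4)) Ω := int_mul hb hm hui (cB 0)
  have j6 : IntegrableOn (fun x => c * B 0 (lam * ‖x‖ ^ 2 / 4)) Ω :=
    int_mul hb hm (integrable_const c) (cB 0)
  -- the sum of the two identities
  have e1 : (∫ x in Ω, (u x - c) * (-(lam / 2) * B 2 (lam * ‖x‖ ^ 2 / 4) * x.re ^ 2 +
      B 1 (lam * ‖x‖ ^ 2 / 4))) + ∫ x in Ω, (u x - c) * (-(lam / 2) * B 2 (lam * ‖x‖ ^ 2 / 4) *
      x.im ^ 2 + B 1 (lam * ‖x‖ ^ 2 / 4)) = 2 * ((∫ x in Ω, u x * B 0 (lam * ‖x‖ ^ 2 / 4)) -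
      ∫ x in Ω, c * B 0 (lam * ‖x‖ ^ 2 / 4)) := by
    rw [← integral_add j1 j2, ← integral_sub j5 j6, ← integral_const_mul]
    refine integral_congr_ae (Eventually.of_forall fun x => ?_)
    simp only []
    have h1 := B_ode 0 (lam * ‖x‖ ^ 2 / 4)
    have h2 : ‖x‖ ^ 2 = x.re ^ 2 + x.im ^ 2 := by
      rw [← Complex.normSq_eq_norm_sq, Complex.normSq_apply]
      ring
    simp only [Nat.cast_zero, zero_add, one_mul] at h1
    have h3 : B 0 (lam * ‖x‖ ^ 2 / 4) = B 1 (lam * ‖x‖ ^ 2 / 4) -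
        lam * ‖x‖ ^ 2 / 4 * B 2 (lam * ‖x‖ ^ 2 / 4) := by linarith
    rw [h3]
    have h4 : lam * ‖x‖ ^ 2 / 4 * B 2 (lam * ‖x‖ ^ 2 / 4) =
        lam * (x.re ^ 2 + x.im ^ 2) / 4 * B 2 (lam * ‖x‖ ^ 2 / 4) := by rw [← h2]
    rw [h4]
    ring
  have e2 : ∫ x in Ω, -(lam / 2) * (B 1 (lam * ‖x‖ ^ 2 / 4) * (x.re * (G x).re +
      x.im * (G x).im)) = -(lam / 2) * ((∫ x in Ω, (G x).re * (B 1 (lam * ‖x‖ ^ 2 / 4) * x.re)) +
      ∫ x in Ω, (G x).im * (B 1 (lam * ‖x‖ ^ 2 / 4) * x.im)) := by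
    rw [← integral_add j3 j4, ← integral_const_mul]
    refine integral_congr_ae (Eventually.of_forall fun x => ?_)
    simp only []
    ring
  rw [e2] at w0
  have e3 : ∫ x in Ω, c * B 0 (lam * ‖x‖ ^ 2 / 4) = c * ∫ x in Ω, B 0 (lam * ‖x‖ ^ 2 / 4) :=
    integral_const_mul _ _
  rw [e3] at e1
  have h5 : lam * (c * ∫ x in Ω, B 0 (lam * ‖x‖ ^ 2 / 4)) = 0 := by
    rw [w1, w2] at e1
    linear_combination (lam / 2) * e1 - w0
  rcases mul_eq_zero.1 h5 with h6 | h6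
  · exact absurd h6 hlam.ne'
  · exact (mul_eq_zero.1 h6).resolve_left hc

theorem disc_J1 {r : ℝ} (hr : 0 < r) (hlam : 0 < lam) (hc : c ≠ 0)
    (h : Sol (ball (0 : ℂ) r) lam c u G) : J 1 (√lam * r) = 0 := by
  have h0 := int_J0 isBounded_ball measurableSet_ball h hlam hc
  have h1 : ∫ x in ball (0 : ℂ) r, B 0 (lam * ‖x‖ ^ 2 / 4) =
      ∫ x : ℂ, (fun t : ℝ => (Iio r).indicator (fun t => B 0 (lam * t ^ 2 / 4)) t) ‖x‖ := by
    rw [← integral_indicator measurableSet_ball]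
    refine integral_congr_ae (Eventually.of_forall fun x => ?_)
    simp only []
    by_cases hx : ‖x‖ < r
    · rw [indicator_of_mem (by rwa [mem_ball_zero_iff]), indicator_of_mem (by exact hx)]
    · rw [indicator_of_notMem (by rwa [mem_ball_zero_iff]), indicator_of_notMem (by exact hx)]
  rw [h1, integral_fun_norm_addHaar, Complex.finrank_real_complex] at h0
  have h2 : (volume : Measure ℂ).real (ball 0 1) ≠ 0 := by
    rw [measureReal_def]
    exact (ENNReal.toReal_pos (isOpen_ball.measure_pos volume ⟨0, by simp⟩).ne'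
      isBounded_ball.measure_lt_top.ne).ne'
  simp only [nsmul_eq_mul, smul_eq_mul, Nat.cast_ofNat, mul_eq_zero, OfNat.ofNat_ne_zero, h2,
    false_or, Nat.add_one_sub_one, pow_one] at h0
  have h3 : ∫ y in Ioi (0 : ℝ), y * (Iio r).indicator (fun t => B 0 (lam * t ^ 2 / 4)) y =
      ∫ y in (0 : ℝ)..r, y * B 0 (lam * y ^ 2 / 4) := by
    rw [intervalIntegral.integral_of_le hr.le, integral_Ioc_eq_integral_Ioo,
      ← integral_indicator measurableSet_Ioi, ← integral_indicator measurableSet_Ioo]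
    refine integral_congr_ae (Eventually.of_forall fun y => ?_)
    by_cases h4 : 0 < y
    · by_cases h5 : y < r
      · rw [indicator_of_mem (by exact h4), indicator_of_mem (by exact h5),
          indicator_of_mem (show y ∈ Ioo 0 r from ⟨h4, h5⟩)]
      · rw [indicator_of_mem (by exact h4), indicator_of_notMem (by exact h5),
          indicator_of_notMem (show y ∉ Ioo 0 r from fun h => h5 h.2), mul_zero]
    · rw [indicator_of_notMem (by exact h4),
        indicator_of_notMem (show y ∉ Ioo 0 r from fun h => h4 h.1)]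
  rw [h3] at h0
  have hd : ∀ y ∈ uIcc (0 : ℝ) r, HasDerivAt (fun y => y ^ 2 / 2 * B 1 (lam * y ^ 2 / 4))
      (y * B 0 (lam * y ^ 2 / 4)) y := by
    intro y _
    have k1 : HasDerivAt (fun y : ℝ => lam * y ^ 2 / 4) (lam * (2 * y) / 4) y := by
      have := ((hasDerivAt_pow 2 y).const_mul lam).div_const 4
      simpa using this
    have k2 := (B_deriv 1 (lam * y ^ 2 / 4)).comp y k1
    have k3 : HasDerivAt (fun y : ℝ => y ^ 2 / 2) y y := by
      have := (hasDerivAt_pow 2 y).div_const 2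
      refine this.congr_deriv ?_
      simp
    refine (k3.mul k2).congr_deriv ?_
    have h6 := B_ode 0 (lam * y ^ 2 / 4)
    simp only [Nat.cast_zero, zero_add, one_mul] at h6
    have h7 : B 0 (lam * y ^ 2 / 4) = B 1 (lam * y ^ 2 / 4) -
        lam * y ^ 2 / 4 * B 2 (lam * y ^ 2 / 4) := by linarith
    rw [h7]
    simp only [Function.comp]
    ring
  have hcont : Continuous fun y : ℝ => y * B 0 (lam * y ^ 2 / 4) :=
    continuous_id.mul ((B_cont 0).comp (by fun_prop))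
  rw [intervalIntegral.integral_eq_sub_of_hasDerivAt hd (hcont.intervalIntegrable 0 r)] at h0
  have h8 : B 1 (lam * r ^ 2 / 4) = 0 := by
    have : r ^ 2 / 2 * B 1 (lam * r ^ 2 / 4) = 0 := by
      simpa using h0
    rcases mul_eq_zero.1 this with h9 | h9
    · exact absurd h9 (by positivity)
    · exact h9
  rw [J_eq, mul_pow, Real.sq_sqrt hlam.le, h8, mul_zero]

end Pool.Agent.TH298.AN
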