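import Mathlib
import Pool.Agent.TH298.AN.Main
import Pool.Agent.TH298.AN.Disc

/-!
The final form of the annulus theorem.
-/

set_option autoImplicit false

namespace Pool.Agent.TH298.AN

open MeasureTheory Set Real Filter Topology Metric TH259.NS
open Pool.Agent.TH298.GB (trans_sol small)
open Pool.Agent.TH298.Sch (Sol)
open scoped ContDiff

variable {Ω : Set ℂ} {lam c : ℝ} {u : ℂ → ℝ} {G : ℂ → ℂ}

theorem ball_J1 {p : ℂ} {r : ℝ} (hr : 0 < r) (hlam : 0 < lam) (hc : c ≠ 0)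
    (h : Sol (ball p r) lam c u G) : J 1 (√lam * r) = 0 := by
  have h1 := trans_sol h measurableSet_ball p
  have h2 : (fun x : ℂ => x + p) ⁻¹' ball p r = ball 0 r := by
    ext x
    simp only [mem_preimage, mem_ball_iff_norm, add_sub_cancel_right, sub_zero]
  rw [h2] at h1
  exact disc_J1 hr hlam hc h1

theorem ball_le {p q : ℂ} {r R : ℝ} (hr : 0 ≤ R) (h : ball p r ⊆ closedBall q R) : r ≤ R := by
  by_contra hcon
  push Not at hcon
  obtain ⟨s, hs1, hs2⟩ := exists_between hcon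
  have hs0 : 0 < s := hr.trans_lt hs1
  have h1 : p + (s : ℂ) ∈ ball p r := by
    rw [mem_ball_iff_norm, add_sub_cancel_left, Complex.norm_real, Real.norm_eq_abs,
      abs_of_pos hs0]
    exact hs2
  have h2 : p - (s : ℂ) ∈ ball p r := by
    rw [mem_ball_iff_norm, sub_sub_cancel_left, norm_neg, Complex.norm_real, Real.norm_eq_abs,
      abs_of_pos hs0]
    exact hs2
  have h3 := h h1
  have h4 := h h2
  rw [mem_closedBall_iff_norm] at h3 h4
  have h5 : ‖(2 * s : ℝ)‖ ≤ ‖p + (s : ℂ) - q‖ + ‖p - (s : ℂ) - q‖ := by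
    have h6 := norm_sub_le (p + (s : ℂ) - q) (p - (s : ℂ) - q)
    have h7 : p + (s : ℂ) - q - (p - (s : ℂ) - q) = ((2 * s : ℝ) : ℂ) := by
      push_cast
      ring
    rw [h7, Complex.norm_real] at h6
    exact h6
  rw [Real.norm_eq_abs, abs_of_pos (by linarith)] at h5
  linarith

theorem annular_main (hP : Pars) (hM : Mode) (hM0 : Mode0) (hM1 : Mode1) (hO : Odem)
    (ho : IsOpen Ω) (hb : Bornology.IsBounded Ω) (hne : Ω.Nonempty)
    (hco : IsPreconnected Ωᶜ) (hint : interior (closure Ω) = Ω) (hfr : volume (frontier Ω) = 0)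
    (hlam : 0 < lam) {q : ℂ} {a R : ℝ} (ha : 0 ≤ a) (hin : ball q a ⊆ Ω)
    (hR : Ω ⊆ closedBall q R)
    (hJ : ∀ n : ℕ, 2 ≤ n → ∀ t, 0 < t → √lam * a ≤ t → t ≤ √lam * R → J n t ≠ 0)
    (h : Sol Ω lam c u G) (hu0 : ¬ (u =ᵐ[volume.restrict Ω] 0)) :
    ∃ (p : ℂ) (r : ℝ), 0 < r ∧ a ≤ r ∧ r ≤ R ∧ Ω = ball p r ∧ J 1 (√lam * r) = 0 := by
  have hk : 0 < √lam := Real.sqrt_pos.2 hlam
  have hc := h.c_ne hb ho.measurableSet hlam hu0
  have hR' : ∀ x ∈ Ω, ‖x - q‖ ≤ R := fun x hx => by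
    have := hR hx
    rwa [mem_closedBall_iff_norm] at this
  have hR0 : 0 ≤ R := by
    obtain ⟨x, hx⟩ := hne
    exact (norm_nonneg _).trans (hR' x hx)
  have key : ∃ (p : ℂ) (r : ℝ), 0 < r ∧ Ω = ball p r := by
    rcases eq_or_lt_of_le ha with h0 | h0
    · refine small ho hb hne hco hint hfr hlam hR' (fun t ht1 ht2 => ?_) h hu0
      refine hJ 2 le_rfl t ht1 ?_ ht2
      rw [← h0, mul_zero]
      exact ht1.le
    · refine annular hP hM hM0 hM1 hO ho hb hne hco hint hfr hlam h0 hin hR'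
        (fun n hn t ht1 ht2 => ?_) h hu0
      exact hJ n hn t ((mul_pos hk h0).trans_le ht1) ht1 ht2
  obtain ⟨p, r, hr, hball⟩ := key
  refine ⟨p, r, hr, ?_, ?_, hball, ?_⟩
  · refine ball_le hr.le (p := q) (q := p) ?_
    rw [hball] at hin
    exact hin.trans ball_subset_closedBall
  · refine ball_le hR0 (p := p) (q := q) ?_
    rw [← hball]
    exact hR
  · rw [hball] at h
    exact ball_J1 hr hlam hc h

end Pool.Agent.TH298.AN
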